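import Pool.Agent.H504R3.Tens

/-!
Norms and moments in tracial C*-algebras; projections onto finite dimensional star subalgebras.
-/

set_option autoImplicit false
set_option linter.unusedSectionVars false

open scoped ComplexOrder Topology
open Filter

namespace Pool.Agent.K6.H69

open Pool.Agent.H467F (TW)
open Pool.Agent.Helper278

section

variable {A : Type} [CStarAlgebra A] {τ : A →ₗ[ℂ] ℂ}

theorem TW.trAlg (h : TW τ) : TrAlg τ := ⟨h.one, h.comm, h.nonneg, h.conj, h.faithful⟩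

/-- positivity of the trace of a nonnegative function -/
theorem tr_cfc_nonneg (h : TW τ) {a : A} (_ : IsSelfAdjoint a) {g : ℝ → ℝ}
    (hg : Continuous g) (h0 : ∀ t ∈ spectrum ℝ a, 0 ≤ g t) : 0 ≤ (τ (cfc g a)).re := by
  have h1 : cfc g a = star (cfc (fun t => Real.sqrt (g t)) a) * cfc (fun t => Real.sqrt (g t)) a := by
    have h2 : star (cfc (fun t => Real.sqrt (g t)) a) = cfc (fun t => Real.sqrt (g t)) a :=
      (cfc_predicate (R := ℝ) (fun t => Real.sqrt (g t)) a : IsSelfAdjoint _)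
    rw [h2, ← cfc_mul (fun t => Real.sqrt (g t)) (fun t => Real.sqrt (g t)) a
      (Real.continuous_sqrt.comp hg).continuousOn (Real.continuous_sqrt.comp hg).continuousOn]
    refine cfc_congr fun t ht => ?_
    exact (Real.mul_self_sqrt (h0 t ht)).symm
  rw [h1]
  exact h.re_nonneg _

theorem tr_cfc_mono (h : TW τ) {a : A} (ha : IsSelfAdjoint a) {g g' : ℝ → ℝ}
    (hg : Continuous g) (hg' : Continuous g') (h0 : ∀ t ∈ spectrum ℝ a, g t ≤ g' t) :
    (τ (cfc g a)).re ≤ (τ (cfc g' a)).re := by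
  have h1 := tr_cfc_nonneg h ha (hg'.sub hg) (fun t ht => sub_nonneg.2 (h0 t ht))
  have h2 : cfc (g' - g) a = cfc g' a - cfc g a :=
    cfc_sub g' g a hg'.continuousOn hg.continuousOn
  rw [h2, map_sub, Complex.sub_re] at h1
  linarith

/-- the norm is bounded by the moments -/
theorem norm_le_of_mom (h : TW τ) (x : A) (C : ℝ) (hC : 0 ≤ C)
    (hm : ∀ k : ℕ, (τ ((star x * x) ^ k)).re ≤ C ^ (2 * k)) : ‖x‖ ≤ C := by
  by_contra hcon
  push Not at hcon
  set a : A := star x * x with ha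
  have hsa : IsSelfAdjoint a := IsSelfAdjoint.star_mul_self x
  have hna : ‖a‖ = ‖x‖ ^ 2 := by rw [ha, CStarRing.norm_star_mul_self, sq]
  have hlt : C ^ 2 < ‖a‖ := by rw [hna]; exact pow_lt_pow_left₀ hcon hC two_ne_zero
  obtain ⟨c, hc1, hc2⟩ := exists_between hlt
  have hc0 : 0 < c := lt_of_le_of_lt (sq_nonneg C) hc1
  have hspec : ∀ t ∈ spectrum ℝ a, 0 ≤ t := spectrum_star_mul_self_nonneg
  have hle : ∀ t ∈ spectrum ℝ a, t ≤ ‖a‖ := fun t ht =>
    (le_abs_self t).trans (by
      have := norm_apply_le_norm_cfc (fun t : ℝ => t) a ht (hf := by fun_prop)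
      rwa [cfc_id' ℝ a, Real.norm_eq_abs] at this)
  set f : ℝ → ℝ := fun t => max (t - c) 0 with hf
  have hfc : Continuous f := by fun_prop
  -- the function does not vanish on the spectrum
  have hb : 0 < (τ (cfc (fun t => f t ^ 2) a)).re := by
    have h1 : cfc (fun t => f t ^ 2) a = star (cfc f a) * cfc f a := by
      have h2 : star (cfc f a) = cfc f a := (cfc_predicate (R := ℝ) f a : IsSelfAdjoint _)
      rw [h2, ← cfc_mul f f a hfc.continuousOn hfc.continuousOn]
      exact cfc_congr fun t _ => sq (f t)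
    rw [h1]
    refine lt_of_le_of_ne (h.re_nonneg _) fun h0 => ?_
    have h3 : τ (star (cfc f a) * cfc f a) = 0 := Complex.ext h0.symm (h.im_zero _)
    have h4 := h.faithful _ h3
    have h5 : ∀ t ∈ spectrum ℝ a, t ≤ c := by
      intro t ht
      have := norm_apply_le_norm_cfc f a ht (hf := hfc.continuousOn)
      rw [h4, norm_zero] at this
      have h6 : f t = 0 := norm_le_zero_iff.1 this
      by_contra hlt'
      push Not at hlt'
      have : f t = t - c := max_eq_left (by linarith)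
      linarith
    have h6 : ‖cfc (fun t : ℝ => t) a‖ ≤ c := by
      refine norm_cfc_le hc0.le fun t ht => ?_
      rw [Real.norm_eq_abs, abs_of_nonneg (hspec t ht)]
      exact h5 t ht
    rw [cfc_id' ℝ a] at h6
    linarith
  -- growth of the moments
  have key : ∀ k : ℕ, c ^ k * (τ (cfc (fun t => f t ^ 2) a)).re ≤ ‖a‖ ^ 2 * C ^ (2 * k) := by
    intro k
    have e1 : cfc (fun t => c ^ k * f t ^ 2) a = ((c ^ k : ℝ) : ℂ) • cfc (fun t => f t ^ 2) a := by
      rw [Complex.coe_smul]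
      exact cfc_const_mul (c ^ k) (fun t => f t ^ 2) a (hfc.pow 2).continuousOn
    have e2 : cfc (fun t => ‖a‖ ^ 2 * t ^ k) a = ((‖a‖ ^ 2 : ℝ) : ℂ) • a ^ k := by
      rw [Complex.coe_smul]
      rw [cfc_const_mul (‖a‖ ^ 2) (fun t => t ^ k) a (continuous_pow k).continuousOn]
      rw [cfc_pow_id a k]
    have h1 : (τ (cfc (fun t => c ^ k * f t ^ 2) a)).re ≤ (τ (cfc (fun t => ‖a‖ ^ 2 * t ^ k) a)).re := by
      refine tr_cfc_mono h hsa (by fun_prop) (by fun_prop) fun t ht => ?_
      have ht0 := hspec t ht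
      have hta := hle t ht
      by_cases htc : t ≤ c
      · have : f t = 0 := max_eq_right (by linarith)
        have h1 : 0 ≤ ‖a‖ ^ 2 * t ^ k := by positivity
        rw [this]
        simpa using h1
      · push Not at htc
        have h2 : f t = t - c := max_eq_left (by linarith)
        have h3 : c ^ k ≤ t ^ k := pow_le_pow_left₀ hc0.le htc.le k
        have h4 : f t ^ 2 ≤ ‖a‖ ^ 2 := by
          rw [h2]
          exact pow_le_pow_left₀ (by linarith) (by linarith) 2
        calc c ^ k * f t ^ 2 ≤ t ^ k * ‖a‖ ^ 2 := by gcongr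
          _ = ‖a‖ ^ 2 * t ^ k := mul_comm _ _
    rw [e1, e2, map_smul, map_smul, smul_eq_mul, smul_eq_mul, Complex.re_ofReal_mul,
      Complex.re_ofReal_mul] at h1
    exact h1.trans (mul_le_mul_of_nonneg_left (hm k) (by positivity))
  -- contradiction
  have hq : C ^ 2 / c < 1 := (div_lt_one hc0).2 hc1
  have hlim : Tendsto (fun k : ℕ => ‖a‖ ^ 2 * (C ^ 2 / c) ^ k) atTop (𝓝 (‖a‖ ^ 2 * 0)) :=
    (tendsto_pow_atTop_nhds_zero_of_lt_one (by positivity) hq).const_mul _
  rw [mul_zero] at hlim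
  have h2 : ∀ k : ℕ, (τ (cfc (fun t => f t ^ 2) a)).re ≤ ‖a‖ ^ 2 * (C ^ 2 / c) ^ k := by
    intro k
    have := key k
    rw [div_pow, ← mul_div_assoc, le_div_iff₀ (pow_pos hc0 k), ← pow_mul]
    linarith
  exact absurd (ge_of_tendsto' hlim h2) (not_le.2 hb)

theorem n2_mul_le (h : TW τ) (x y : A) : n2 τ (x * y) ≤ ‖x‖ * n2 τ y :=
  (Pool.Agent.H467F.n2_mul_le h x y).1

theorem abs_tr_le (h : TW τ) (x : A) : ‖τ x‖ ≤ ‖x‖ := by
  have h1 := (TW.trAlg h).cauchy 1 x
  rw [star_one, one_mul, Pool.Agent.H504R3.n2_one (TW.trAlg h), one_mul] at h1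
  have h2 := n2_mul_le h x 1
  rw [mul_one, Pool.Agent.H504R3.n2_one (TW.trAlg h), mul_one] at h2
  exact h1.trans h2

theorem mom_le (h : TW τ) (x : A) (k : ℕ) : (τ ((star x * x) ^ k)).re ≤ ‖x‖ ^ (2 * k) := by
  refine (Complex.re_le_norm _).trans ((abs_tr_le h _).trans ?_)
  rcases Nat.eq_zero_or_pos k with rfl | hk
  · rw [pow_zero, mul_zero, pow_zero]
    by_cases hA : Nontrivial A
    · exact (CStarRing.norm_one (E := A)).le
    · rw [not_nontrivial_iff_subsingleton] at hA
      rw [Subsingleton.elim (1 : A) 0, norm_zero]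
      norm_num
  · refine (norm_pow_le' _ hk).trans ?_
    rw [CStarRing.norm_star_mul_self, ← sq, ← pow_mul]

/-- `y` is the projection of `x` to the star subalgebra `D` -/
structure IsProj (τ : A →ₗ[ℂ] ℂ) (D : Submodule ℂ A) (x y : A) : Prop where
  mem : y ∈ D
  eq : ∀ d ∈ D, τ (star d * y) = τ (star d * x)

theorem IsProj.n2_le (h : TW τ) {D : Submodule ℂ A} {x y : A} (hp : IsProj τ D x y) :
    n2 τ y ≤ n2 τ x := by
  have h1 := (TW.trAlg h).n2_sq y
  rw [hp.eq y hp.mem] at h1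
  have h2 := (TW.trAlg h).cauchy y x
  have h3 := Complex.re_le_norm (τ (star y * x))
  have h4 : n2 τ y * n2 τ y ≤ n2 τ y * n2 τ x := by nlinarith
  rcases (n2_nonneg τ y).eq_or_lt with h5 | h5
  · rw [← h5]; exact n2_nonneg τ x
  · exact le_of_mul_le_mul_left h4 h5

/-- the projection does not increase the norm -/
theorem IsProj.norm_le (h : TW τ) {D : Submodule ℂ A} (h1 : (1 : A) ∈ D)
    (hmul : ∀ a ∈ D, ∀ b ∈ D, a * b ∈ D) (hstar : ∀ a ∈ D, star a ∈ D) {x y : A}
    (hp : IsProj τ D x y) : ‖y‖ ≤ ‖x‖ := by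
  have hs : IsProj τ D (star x) (star y) := by
    refine ⟨hstar _ hp.mem, fun d hd => ?_⟩
    have e := hp.eq (star d) (hstar d hd)
    rw [star_star] at e
    have h2 : ∀ z, τ (star d * star z) = star (τ (d * z)) := by
      intro z
      rw [← h.conj, star_mul, h.comm]
    rw [h2, h2, e]
  have hm : ∀ x y : A, IsProj τ D x y → ∀ z ∈ D, IsProj τ D (x * z) (y * z) := by
    intro x y hp z hz
    refine ⟨hmul _ hp.mem _ hz, fun d hd => ?_⟩
    have e := hp.eq (d * star z) (hmul _ hd _ (hstar z hz))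
    rw [star_mul, star_star] at e
    have h2 : ∀ w : A, τ (star d * (w * z)) = τ (z * star d * w) := by
      intro w
      rw [← mul_assoc, h.comm, ← mul_assoc]
    rw [h2, h2, e]
  have b1 : ∀ z ∈ D, n2 τ (y * z) ≤ ‖x‖ * n2 τ z := fun z hz =>
    ((hm x y hp z hz).n2_le h).trans (n2_mul_le h x z)
  have b2 : ∀ z ∈ D, n2 τ (star y * z) ≤ ‖x‖ * n2 τ z := by
    intro z hz
    have := ((hm _ _ hs z hz).n2_le h).trans (n2_mul_le h (star x) z)
    rwa [norm_star] at this
  have hpow : ∀ l : ℕ, (star y * y) ^ l ∈ D ∧ n2 τ ((star y * y) ^ l) ≤ ‖x‖ ^ (2 * l) := by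
    intro l
    induction l with
    | zero =>
      rw [pow_zero, mul_zero, pow_zero, Pool.Agent.H504R3.n2_one (TW.trAlg h)]
      exact ⟨h1, le_refl _⟩
    | succ l ih =>
      have e : (star y * y) ^ (l + 1) = star y * (y * (star y * y) ^ l) := by
        rw [pow_succ', mul_assoc]
      have hD : y * (star y * y) ^ l ∈ D := hmul _ hp.mem _ ih.1
      refine ⟨by rw [e]; exact hmul _ (hstar _ hp.mem) _ hD, ?_⟩
      rw [e]
      have h2 := b2 _ hD
      have h3 := b1 _ ih.1
      have h4 : ‖x‖ ^ (2 * (l + 1)) = ‖x‖ * (‖x‖ * ‖x‖ ^ (2 * l)) := by ring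
      rw [h4]
      exact h2.trans (mul_le_mul_of_nonneg_left (h3.trans
        (mul_le_mul_of_nonneg_left ih.2 (norm_nonneg _))) (norm_nonneg _))
  have hsa : ∀ l : ℕ, star ((star y * y) ^ l) = (star y * y) ^ l := fun l =>
    (IsSelfAdjoint.pow (IsSelfAdjoint.star_mul_self y) l : IsSelfAdjoint _)
  refine norm_le_of_mom h y ‖x‖ (norm_nonneg _) fun k => ?_
  rcases Nat.even_or_odd' k with ⟨l, rfl | rfl⟩
  · have e : (star y * y) ^ (2 * l) = star ((star y * y) ^ l) * (star y * y) ^ l := by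
      rw [hsa, ← pow_add, two_mul]
    rw [e, ← (TW.trAlg h).n2_sq]
    have := pow_le_pow_left₀ (n2_nonneg _ _) (hpow l).2 2
    rwa [← pow_mul, show 2 * l * 2 = 2 * (2 * l) by ring] at this
  · have e : (star y * y) ^ (2 * l + 1) = star (y * (star y * y) ^ l) * (y * (star y * y) ^ l) := by
      rw [star_mul, hsa]
      have : (star y * y) ^ l * star y * (y * (star y * y) ^ l) =
          (star y * y) ^ l * (star y * y) * (star y * y) ^ l := by simp only [mul_assoc]
      rw [this, ← pow_succ, ← pow_add]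
      congr 1
      ring
    rw [e, ← (TW.trAlg h).n2_sq]
    have h3 := b1 _ (hpow l).1
    have h4 : n2 τ (y * (star y * y) ^ l) ≤ ‖x‖ ^ (2 * l + 1) := by
      rw [pow_succ']
      exact h3.trans (mul_le_mul_of_nonneg_left (hpow l).2 (norm_nonneg _))
    have := pow_le_pow_left₀ (n2_nonneg _ _) h4 2
    rwa [← pow_mul, show (2 * l + 1) * 2 = 2 * (2 * l + 1) by ring] at this

end

end Pool.Agent.K6.H69
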