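import Pool.Agent.K6.H69.SimpDefs
import Pool.Agent.Helper436.SM.ExR
import Pool.Agent.H504R3.Bridge

/-!
Infinite tensor products of `2 × 2` matrices over an arbitrary index set.
-/

set_option autoImplicit false
set_option linter.unusedSectionVars false

open scoped InnerProductSpace ComplexOrder

namespace Pool.Agent.K6.H69

open Pool.Agent.Helper278
open Pool.Agent.Helper436.SM (sg VV bf PauliSys)
open Pool.Agent.Helper436.SM.ExR (sg_add sg_sq sg_zero norm_sg)

/-- Pauli strings over `I` -/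
abbrev VI (I : Type) : Type := I →₀ (ZMod 2 × ZMod 2)

variable {I : Type}

/-- the bilinear form -/
def bfI (v w : VI I) : ZMod 2 := v.sum fun i a => a.2 * (w i).1

/-- A system of Pauli unitaries over `I`. -/
structure PSys {A : Type*} [Ring A] [StarRing A] [Algebra ℂ A] (τ : A →ₗ[ℂ] ℂ)
    (W : VI I → A) : Prop where
  zero : W 0 = 1
  mul : ∀ v w, W v * W w = sg (bfI v w) • W (v + w)
  adj : ∀ v, star (W v) = sg (bfI v v) • W v
  trace_zero : τ (W 0) = 1
  trace_ne : ∀ v, v ≠ 0 → τ (W v) = 0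

theorem bfI_add_left (v v' w : VI I) : bfI (v + v') w = bfI v w + bfI v' w := by
  classical
  unfold bfI
  refine Finsupp.sum_add_index' ?_ ?_
  · intro i; simp
  · intro i a b; simp [add_mul]

theorem bfI_add_right (v w w' : VI I) : bfI v (w + w') = bfI v w + bfI v w' := by
  unfold bfI
  rw [← Finsupp.sum_add]
  refine Finsupp.sum_congr fun i _ => ?_
  rw [Finsupp.add_apply, Prod.fst_add, mul_add]

theorem bfI_zero_left (w : VI I) : bfI 0 w = 0 := by
  simp [bfI]

theorem bfI_zero_right (v : VI I) : bfI v 0 = 0 := by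
  simp [bfI]

theorem VI_add_self (v : VI I) : v + v = 0 := by
  have h : ∀ a : ZMod 2 × ZMod 2, a + a = 0 := by decide
  ext1 i
  exact h (v i)

theorem VI_cancel (k v : VI I) : k + v + v = k := by
  rw [add_assoc, VI_add_self, add_zero]

namespace Mod

attribute [local instance] Classical.propDecidable

/-- signed translation operators -/
noncomputable def sop (s : (VI I) → ℂ) (hs : ∀ h, ‖s h‖ = 1) (v : (VI I)) : EllTwo (VI I) →L[ℂ] EllTwo (VI I) :=
  LinearIsometry.toContinuousLinearMap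
    { toFun := fun f => ⟨fun h => s h * f (h + v), by
        have h1 := (lp.memℓp f).summable (by norm_num)
        refine memℓp_gen ?_
        have h2 := ((Equiv.addRight v).summable_iff
          (f := fun h => ‖f h‖ ^ (2 : ENNReal).toReal)).2 h1
        refine h2.congr fun h => ?_
        rw [norm_mul, hs, one_mul]
        rfl⟩
      map_add' := fun f g => by
        ext h
        show s h * (f + g) (h + v) = s h * f (h + v) + s h * g (h + v)
        rw [lp.coeFn_add, Pi.add_apply, mul_add]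
      map_smul' := fun c f => by
        ext h
        show s h * (c • f) (h + v) = c * (s h * f (h + v))
        rw [lp.coeFn_smul, Pi.smul_apply, smul_eq_mul]
        ring
      norm_map' := fun f => by
        have h1 : (0 : ℝ) < (2 : ENNReal).toReal := by norm_num
        rw [lp.norm_eq_tsum_rpow h1, lp.norm_eq_tsum_rpow h1]
        congr 1
        rw [← (Equiv.addRight v).tsum_eq (fun h => ‖f h‖ ^ (2 : ENNReal).toReal)]
        refine tsum_congr fun h => ?_
        show ‖s h * f (h + v)‖ ^ _ = ‖f (h + v)‖ ^ _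
        rw [norm_mul, hs, one_mul] }

theorem sop_apply (s : (VI I) → ℂ) (hs : ∀ h, ‖s h‖ = 1) (v : (VI I)) (f : EllTwo (VI I)) (h : (VI I)) :
    (sop s hs v f) h = s h * f (h + v) := rfl

/-- the Pauli operators -/
noncomputable def Wo (v : (VI I)) : EllTwo (VI I) →L[ℂ] EllTwo (VI I) :=
  sop (fun h => sg (bfI v (h + v))) (fun _ => norm_sg _) v

/-- the right operators -/
noncomputable def Ro (v : (VI I)) : EllTwo (VI I) →L[ℂ] EllTwo (VI I) :=
  sop (fun h => sg (bfI (h + v) v)) (fun _ => norm_sg _) v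

theorem Wo_apply (v : (VI I)) (f : EllTwo (VI I)) (h : (VI I)) :
    (Wo v f) h = sg (bfI v (h + v)) * f (h + v) := rfl

theorem Ro_apply (v : (VI I)) (f : EllTwo (VI I)) (h : (VI I)) :
    (Ro v f) h = sg (bfI (h + v) v) * f (h + v) := rfl

theorem Wo_zero : Wo (0 : VI I) = 1 := by
  ext f h
  rw [Wo_apply, bfI_zero_left, sg_zero, one_mul, add_zero]
  rfl

theorem Wo_mul (v w : (VI I)) : Wo v * Wo w = sg (bfI v w) • Wo (v + w) := by
  ext f h
  show (Wo v (Wo w f)) h = sg (bfI v w) * (Wo (v + w) f) h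
  rw [Wo_apply, Wo_apply, Wo_apply, ← mul_assoc, ← mul_assoc, ← sg_add, ← sg_add]
  have h1 : h + v + w = h + (v + w) := add_assoc _ _ _
  have h2 : bfI v (h + v) + bfI w (h + v + w) = bfI v w + bfI (v + w) (h + (v + w)) := by
    simp only [bfI_add_left, bfI_add_right]
    have h3 : bfI v w + bfI v w = 0 := CharTwo.add_self_eq_zero _
    linear_combination (-1 : ZMod 2) * h3
  rw [h2, h1]

theorem Wo_Ro (v u : (VI I)) : Wo v * Ro u = Ro u * Wo v := by
  ext f h
  show (Wo v (Ro u f)) h = (Ro u (Wo v f)) h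
  rw [Wo_apply, Ro_apply, Ro_apply, Wo_apply, ← mul_assoc, ← mul_assoc, ← sg_add, ← sg_add]
  have h1 : h + v + u = h + u + v := add_right_comm _ _ _
  have h2 : bfI v (h + v) + bfI (h + v + u) u = bfI (h + u) u + bfI v (h + u + v) := by
    simp only [bfI_add_left, bfI_add_right]
    ring
  rw [h2, h1]

theorem star_Wo (v : (VI I)) : star (Wo v) = sg (bfI v v) • Wo v := by
  rw [ContinuousLinearMap.star_eq_adjoint]
  symm
  rw [ContinuousLinearMap.eq_adjoint_iff]
  intro x y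
  have h1 := lp.hasSum_inner (𝕜 := ℂ) ((sg (bfI v v) • Wo v) x) y
  have h2 := lp.hasSum_inner (𝕜 := ℂ) x (Wo v y)
  have h3 := ((Equiv.addRight v).hasSum_iff (f := fun i => ⟪x i, (Wo v y) i⟫_ℂ)
    (a := ⟪x, Wo v y⟫_ℂ)).2 h2
  refine h1.unique ?_
  refine h3.congr_fun ?_
  intro i
  show ⟪sg (bfI v v) * (Wo v x) i, y i⟫_ℂ = ⟪x (i + v), (Wo v y) (i + v)⟫_ℂ
  rw [Wo_apply, Wo_apply, VI_cancel, ← mul_assoc, ← sg_add]
  have h4 : bfI v v + bfI v (i + v) = bfI v i := by
    rw [bfI_add_right]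
    have h3 : bfI v v + bfI v v = 0 := CharTwo.add_self_eq_zero _
    linear_combination h3
  rw [h4, ← smul_eq_mul, ← smul_eq_mul, inner_smul_left, inner_smul_right]
  congr 1
  exact Pool.Agent.Helper436.SM.ExR.star_sg _

/-- the von Neumann algebra of the Pauli operators -/
noncomputable def NP (I : Type) : VonNeumannAlgebra (EllTwo (VI I)) :=
  vnGen (Set.range (Wo (I := I)))

theorem mem_NP (z : EllTwo (VI I) →L[ℂ] EllTwo (VI I)) : z ∈ (NP I) ↔
    ∀ t ∈ StarSubalgebra.centralizer ℂ (Set.range (Wo (I := I))), t * z = z * t ∧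
      star t * z = z * star t :=
  StarSubalgebra.mem_centralizer_iff (R := ℂ)

theorem mem_comm_NP (t : EllTwo (VI I) →L[ℂ] EllTwo (VI I)) :
    t ∈ StarSubalgebra.centralizer ℂ (Set.range (Wo (I := I))) ↔ ∀ v, Wo v * t = t * Wo v := by
  rw [StarSubalgebra.mem_centralizer_iff (R := ℂ)]
  constructor
  · intro h v
    exact (h _ ⟨v, rfl⟩).1
  · rintro h _ ⟨v, rfl⟩
    refine ⟨h v, ?_⟩
    rw [star_Wo, smul_mul_assoc, mul_smul_comm, h v]

theorem Wo_mem (v : (VI I)) : Wo v ∈ (NP I) := by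
  rw [mem_NP]
  intro t ht
  have ht' := (mem_comm_NP t).1 ht
  refine ⟨(ht' v).symm, ?_⟩
  have h1 := congrArg star (ht' v)
  rw [star_mul, star_mul, star_Wo, mul_smul_comm, smul_mul_assoc] at h1
  have h2 : sg (bfI v v) ≠ 0 := by
    intro h0
    have := norm_sg (bfI v v)
    rw [h0, norm_zero] at this
    exact zero_ne_one this
  exact smul_right_injective _ h2 h1

theorem comm_Ro (x : EllTwo (VI I) →L[ℂ] EllTwo (VI I)) (hx : x ∈ (NP I)) (u : (VI I)) :
    Ro u * x = x * Ro u := by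
  rw [mem_NP] at hx
  exact (hx (Ro u) ((mem_comm_NP _).2 fun v => Wo_Ro v u)).1

/-- the standard basis of `ℓ²(V)` -/
noncomputable def bb (I : Type) : HilbertBasis (VI I) ℂ (EllTwo (VI I)) :=
  HilbertBasis.ofRepr (LinearIsometryEquiv.refl ℂ (EllTwo (VI I)))

theorem coef_bb (k : (VI I)) (f : EllTwo (VI I)) : ⟪(bb I) k, f⟫_ℂ = f k := by
  rw [← (bb I).repr_apply_apply]
  rfl

theorem bb_apply (k h : (VI I)) : ((bb I) k) h = if h = k then 1 else 0 := by
  rw [← coef_bb]
  split_ifs with hk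
  · rw [hk]
    exact inner_bb_self (bb I) k
  · exact inner_bb (bb I) h k hk

theorem Ro_bb (w : (VI I)) : Ro w ((bb I) 0) = (bb I) w := by
  ext h
  rw [Ro_apply, bb_apply, bb_apply]
  by_cases hh : h = w
  · subst hh
    rw [VI_add_self, bfI_zero_left, sg_zero]
    simp
  · have h1 : h + w ≠ 0 := by
      intro h2
      apply hh
      have h3 := VI_cancel h w
      rw [h2, zero_add] at h3
      exact h3.symm
    simp [h1, hh]

theorem Wo_bb (w : (VI I)) : Wo w ((bb I) 0) = (bb I) w := by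
  ext h
  rw [Wo_apply, bb_apply, bb_apply]
  by_cases hh : h = w
  · subst hh
    rw [VI_add_self, bfI_zero_right, sg_zero]
    simp
  · have h1 : h + w ≠ 0 := by
      intro h2
      apply hh
      have h3 := VI_cancel h w
      rw [h2, zero_add] at h3
      exact h3.symm
    simp [h1, hh]

theorem apply_bb (x : EllTwo (VI I) →L[ℂ] EllTwo (VI I)) (hx : x ∈ (NP I)) (w : (VI I)) :
    x ((bb I) w) = Ro w (x ((bb I) 0)) := by
  have h2 := congrArg (fun z : EllTwo (VI I) →L[ℂ] EllTwo (VI I) => z ((bb I) 0)) (comm_Ro x hx w)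
  have h3 : Ro w (x ((bb I) 0)) = x (Ro w ((bb I) 0)) := h2
  rw [h3, Ro_bb]

theorem star_coef_NP (x : EllTwo (VI I) →L[ℂ] EllTwo (VI I)) (hx : x ∈ (NP I)) (h : (VI I)) :
    ⟪(bb I) h, (star x) ((bb I) 0)⟫_ℂ = sg (bfI h h) * star (⟪(bb I) h, x ((bb I) 0)⟫_ℂ) := by
  rw [ContinuousLinearMap.star_eq_adjoint, ContinuousLinearMap.adjoint_inner_right,
    ← inner_conj_symm, coef_bb, apply_bb x hx, Ro_apply, zero_add, coef_bb, map_mul]
  congr 1
  exact Pool.Agent.Helper436.SM.ExR.star_sg _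

/-- the canonical trace -/
noncomputable def trP (I : Type) : Elt (NP I) →ₗ[ℂ] ℂ where
  toFun x := ⟪(bb I) 0, (x : EllTwo (VI I) →L[ℂ] EllTwo (VI I)) ((bb I) 0)⟫_ℂ
  map_add' x y := by
    show ⟪(bb I) 0, (x : EllTwo (VI I) →L[ℂ] EllTwo (VI I)) ((bb I) 0) +
      (y : EllTwo (VI I) →L[ℂ] EllTwo (VI I)) ((bb I) 0)⟫_ℂ = _
    rw [inner_add_right]
  map_smul' c x := by
    show ⟪(bb I) 0, c • (x : EllTwo (VI I) →L[ℂ] EllTwo (VI I)) ((bb I) 0)⟫_ℂ = _
    rw [inner_smul_right]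
    rfl

theorem trP_apply (x : Elt (NP I)) :
    (trP I) x = ⟪(bb I) 0, (x : EllTwo (VI I) →L[ℂ] EllTwo (VI I)) ((bb I) 0)⟫_ℂ := rfl

theorem trP_mul (x y : Elt (NP I)) :
    HasSum (fun h => sg (bfI h h) * (⟪(bb I) h, (x : EllTwo (VI I) →L[ℂ] EllTwo (VI I)) ((bb I) 0)⟫_ℂ *
      ⟪(bb I) h, (y : EllTwo (VI I) →L[ℂ] EllTwo (VI I)) ((bb I) 0)⟫_ℂ)) ((trP I) (x * y)) := by
  have h1 : (trP I) (x * y) = ⟪(star (x : EllTwo (VI I) →L[ℂ] EllTwo (VI I))) ((bb I) 0),
      (y : EllTwo (VI I) →L[ℂ] EllTwo (VI I)) ((bb I) 0)⟫_ℂ := by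
    rw [ContinuousLinearMap.star_eq_adjoint, ContinuousLinearMap.adjoint_inner_left]
    rfl
  rw [h1]
  refine ((bb I).hasSum_inner_mul_inner ((star (x : EllTwo (VI I) →L[ℂ] EllTwo (VI I))) ((bb I) 0))
    ((y : EllTwo (VI I) →L[ℂ] EllTwo (VI I)) ((bb I) 0))).congr_fun ?_
  intro h
  rw [← inner_conj_symm ((star (x : EllTwo (VI I) →L[ℂ] EllTwo (VI I))) ((bb I) 0)) ((bb I) h),
    star_coef_NP _ x.2, map_mul, ← mul_assoc]
  congr 2
  · exact (Pool.Agent.Helper436.SM.ExR.star_sg _).symm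
  · rw [Complex.star_def, Complex.conj_conj]

theorem trP_star_mul (x : Elt (NP I)) : (trP I) (star x * x) =
    ⟪(x : EllTwo (VI I) →L[ℂ] EllTwo (VI I)) ((bb I) 0), (x : EllTwo (VI I) →L[ℂ] EllTwo (VI I)) ((bb I) 0)⟫_ℂ := by
  rw [← ContinuousLinearMap.adjoint_inner_right, ← ContinuousLinearMap.star_eq_adjoint]
  rfl

/-- the tracial state -/
noncomputable def TP (I : Type) : TracialState (NP I) where
  τ := (trP I)
  normal := by
    refine ⟨fun k => if k = 0 then (bb I) 0 else 0, ?_, ?_⟩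
    · refine summable_of_ne_finset_zero (s := {0}) ?_
      intro k hk
      have : k ≠ 0 := by simpa using hk
      simp [this]
    · intro x
      rw [tsum_eq_single 0]
      · simp [trP_apply]
      · intro k hk
        simp [hk]
  map_one := inner_bb_self (bb I) 0
  tracial := by
    intro x y
    refine (trP_mul x y).unique ((trP_mul y x).congr_fun ?_)
    intro h
    rw [mul_comm (⟪(bb I) h, (x : EllTwo (VI I) →L[ℂ] EllTwo (VI I)) ((bb I) 0)⟫_ℂ)]
  faithful := by
    intro x hx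
    rw [trP_star_mul, inner_self_eq_zero] at hx
    apply Subtype.ext
    apply ext_basis (bb I)
    intro w
    rw [apply_bb _ x.2, hx, map_zero]
    rfl

theorem parseval_P (x : Elt (NP I)) :
    HasSum (fun v => ‖(trP I) (star (⟨Wo v, Wo_mem v⟩ : Elt (NP I)) * x)‖ ^ 2)
      ((trP I) (star x * x)).re := by
  have h2 := (bb I).hasSum_inner_mul_inner ((x : EllTwo (VI I) →L[ℂ] EllTwo (VI I)) ((bb I) 0))
    ((x : EllTwo (VI I) →L[ℂ] EllTwo (VI I)) ((bb I) 0))
  have h3 := Complex.hasSum_re h2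
  rw [trP_star_mul]
  refine h3.congr_fun ?_
  intro g
  have h4 : (trP I) (star (⟨Wo g, Wo_mem g⟩ : Elt (NP I)) * x) =
      ⟪(bb I) g, (x : EllTwo (VI I) →L[ℂ] EllTwo (VI I)) ((bb I) 0)⟫_ℂ := by
    show ⟪(bb I) 0, (star (Wo g)) ((x : EllTwo (VI I) →L[ℂ] EllTwo (VI I)) ((bb I) 0))⟫_ℂ = _
    rw [ContinuousLinearMap.star_eq_adjoint, ContinuousLinearMap.adjoint_inner_right, Wo_bb]
  rw [h4, ← inner_conj_symm ((x : EllTwo (VI I) →L[ℂ] EllTwo (VI I)) ((bb I) 0)) ((bb I) g),
    ← Complex.normSq_eq_conj_mul_self, Complex.normSq_eq_norm_sq, Complex.ofReal_re]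



end Mod

open Pool.Agent.H504R3 (TVN ON)

section

variable {A : Type} [Ring A] [StarRing A] [Algebra ℂ A] [StarModule ℂ A] {τ : A →ₗ[ℂ] ℂ}
  {W : VI I → A}

/-- the linear combinations of the Pauli strings are dense -/
def Dns (τ : A →ₗ[ℂ] ℂ) (W : VI I → A) : Prop :=
  ∀ (x : A) (ε : ℝ), 0 < ε → ∃ c : VI I →₀ ℂ, n2 τ (x - Finsupp.linearCombination ℂ W c) < ε

theorem PSys.star_mul_self (hW : PSys τ W) (v : VI I) : star (W v) * W v = 1 := by
  rw [hW.adj, smul_mul_assoc, hW.mul, smul_smul, sg_sq, one_smul, VI_add_self, hW.zero]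

theorem PSys.mul_star_self (hW : PSys τ W) (v : VI I) : W v * star (W v) = 1 := by
  rw [hW.adj, mul_smul_comm, hW.mul, smul_smul, sg_sq, one_smul, VI_add_self, hW.zero]

open Classical in
theorem PSys.on (hW : PSys τ W) : ON τ W := by
  intro s t
  rw [hW.adj, smul_mul_assoc, hW.mul, smul_smul, map_smul]
  have key : s + t = 0 ↔ s = t := by
    constructor
    · intro h
      have : s + t + t = t := by rw [h, zero_add]
      rwa [VI_cancel] at this
    · rintro rfl
      exact VI_add_self s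
  by_cases hst : s = t
  · subst hst
    rw [VI_add_self, hW.trace_zero, if_pos rfl, sg_sq, smul_eq_mul, mul_one]
  · rw [hW.trace_ne _ (fun h => hst (key.1 h)), if_neg hst, smul_zero]

end

/-- the infinite tensor product of `2 × 2` matrices -/
noncomputable def modT (I : Type) : TVN where
  H := EllTwo (VI I)
  N := Mod.NP I
  τ := Mod.trP I
  map_one := (Mod.TP I).map_one
  tracial := (Mod.TP I).tracial
  faithful := (Mod.TP I).faithful
  normal := (Mod.TP I).normal

open Classical in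
theorem exists_model (I : Type) : ∃ (T : TVN) (W : VI I → T.E), PSys T.τ W ∧ Dns T.τ W := by
  set T : TVN := modT I with hT
  have hPS : PSys T.τ (fun v => (⟨Mod.Wo v, Mod.Wo_mem v⟩ : T.E)) := by
    refine ⟨?_, ?_, ?_, ?_, ?_⟩
    · apply Subtype.ext
      exact Mod.Wo_zero
    · intro v w
      apply Subtype.ext
      exact Mod.Wo_mul v w
    · intro v
      apply Subtype.ext
      exact Mod.star_Wo v
    · show ⟪Mod.bb I 0, Mod.Wo 0 (Mod.bb I 0)⟫_ℂ = _
      rw [Mod.Wo_bb, Mod.coef_bb, Mod.bb_apply, if_pos rfl]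
    · intro v hv
      show ⟪Mod.bb I 0, Mod.Wo v (Mod.bb I 0)⟫_ℂ = _
      rw [Mod.Wo_bb, Mod.coef_bb, Mod.bb_apply, if_neg (Ne.symm hv)]
  refine ⟨T, fun v => (⟨Mod.Wo v, Mod.Wo_mem v⟩ : T.E), hPS, ?_⟩
  intro x ε hε
  have h := T.trAlg
  have hp := Mod.parseval_P x
  set W : VI I → T.E := fun v => (⟨Mod.Wo v, Mod.Wo_mem v⟩ : T.E) with hW
  have hp' : HasSum (fun v => ‖T.τ (star (W v) * x)‖ ^ 2) (n2 T.τ x ^ 2) := by
    rw [h.n2_sq]
    exact hp
  have hon := hPS.on
  have hev := (hp'.eventually (lt_mem_nhds (show n2 T.τ x ^ 2 - ε ^ 2 < n2 T.τ x ^ 2 by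
    have := pow_pos hε 2; linarith)))
  obtain ⟨F, hF⟩ := hev.exists
  refine ⟨∑ v ∈ F, Finsupp.single v (T.τ (star (W v) * x)), ?_⟩
  have e0 : Finsupp.linearCombination ℂ W (∑ v ∈ F, Finsupp.single v (T.τ (star (W v) * x))) =
      ∑ v ∈ F, T.τ (star (W v) * x) • W v := by
    rw [map_sum]
    exact Finset.sum_congr rfl fun v _ => by rw [Finsupp.linearCombination_single]
  rw [e0]
  set s := ∑ v ∈ F, T.τ (star (W v) * x) • W v with hs
  have e1 : n2 T.τ (x - s) ^ 2 = n2 T.τ x ^ 2 - ∑ v ∈ F, ‖T.τ (star (W v) * x)‖ ^ 2 := by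
    have e2 : star (x - s) * (x - s) = star x * x + star s * s - star s * x - star x * s := by
      rw [star_sub]; noncomm_ring
    have e3 : (T.τ (star x * s)).re = (T.τ (star s * x)).re := by
      have : T.τ (star x * s) = star (T.τ (star s * x)) := by
        rw [← h.conj, star_mul, star_star]
      rw [this, Complex.star_def, Complex.conj_re]
    have e4 : T.τ (star s * x) = ∑ v ∈ F, ((‖T.τ (star (W v) * x)‖ ^ 2 : ℝ) : ℂ) := by
      rw [hs, star_sum, Finset.sum_mul, map_sum]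
      refine Finset.sum_congr rfl fun i _ => ?_
      rw [star_smul, smul_mul_assoc, map_smul, smul_eq_mul, Complex.star_def,
        ← Complex.normSq_eq_conj_mul_self, Complex.normSq_eq_norm_sq]
    have e5 : n2 T.τ s ^ 2 = ∑ v ∈ F, ‖T.τ (star (W v) * x)‖ ^ 2 := hon.n2_sum h F _
    rw [h.n2_sq, e2, map_sub, map_sub, map_add, Complex.sub_re, Complex.sub_re, Complex.add_re,
      e3, e4, ← h.n2_sq, ← h.n2_sq, e5, ← Complex.ofReal_sum, Complex.ofReal_re]
    ring
  have e6 : n2 T.τ (x - s) ^ 2 < ε ^ 2 := by rw [e1]; linarith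
  exact lt_of_pow_lt_pow_left₀ 2 hε.le e6

end Pool.Agent.K6.H69
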