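import Pool.Agent.K6.H69.SimpA
import Pool.Agent.K6.H69.SimpB

/-!
Approximation by linear combinations of Pauli strings with control of the operator norm; the
algebra of formal linear combinations of Pauli strings.
-/

set_option autoImplicit false
set_option linter.unusedSectionVars false

open scoped InnerProductSpace ComplexOrder

namespace Pool.Agent.K6.H69

open Pool.Agent.Helper278
open Pool.Agent.Helper436.SM (sg)
open Pool.Agent.Helper436.SM.ExR (sg_add sg_sq sg_zero norm_sg)
open Pool.Agent.H504R3 (TVN ON)
open Pool.Agent.H504R3.S (Tm Fm str)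

variable {I J : Type}

/-! ### Norm controlled approximation -/

section

variable {A : Type} [CStarAlgebra A] {τ : A →ₗ[ℂ] ℂ} {W : VI I → A}

open Pool.Agent.H467F (TW)

theorem IsProj.best (h : TW τ) {D : Submodule ℂ A} {x y : A} (hp : IsProj τ D x y) {d : A}
    (hd : d ∈ D) : n2 τ (x - y) ≤ n2 τ (x - d) := by
  have ht := TW.trAlg h
  have he : y - d ∈ D := D.sub_mem hp.mem hd
  have h0 : τ (star (y - d) * (x - y)) = 0 := by
    rw [mul_sub, map_sub, hp.eq _ he, sub_self]
  have h1 : n2 τ (x - d) ^ 2 = n2 τ (x - y) ^ 2 + n2 τ (y - d) ^ 2 := by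
    rw [ht.n2_sq, ht.n2_sq, ht.n2_sq]
    have e : star (x - d) * (x - d) = star (x - y) * (x - y) + star (y - d) * (y - d) +
        star (y - d) * (x - y) + star (star (y - d) * (x - y)) := by
      simp only [star_sub, star_mul, star_star]
      noncomm_ring
    rw [e, map_add, map_add, map_add, ht.conj, h0, star_zero, add_zero, add_zero, Complex.add_re]
  have h2 : n2 τ (x - y) ^ 2 ≤ n2 τ (x - d) ^ 2 := by
    rw [h1]
    have := sq_nonneg (n2 τ (y - d))
    linarith
  exact (pow_le_pow_iff_left₀ (n2_nonneg _ _) (n2_nonneg _ _) two_ne_zero).1 h2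

open Classical in
theorem kap (h : TW τ) (hW : PSys τ W) (hd : Dns τ W) (x : A) (ε : ℝ) (hε : 0 < ε) :
    ∃ c : VI I →₀ ℂ, n2 τ (x - Finsupp.linearCombination ℂ W c) < ε ∧
      ‖Finsupp.linearCombination ℂ W c‖ ≤ ‖x‖ := by
  obtain ⟨c0, hc0⟩ := hd x ε hε
  set G : Finset I := c0.support.biUnion (fun v => v.support) with hG
  have hfin : {v : VI I | v.support ⊆ G}.Finite := by
    have : {v : VI I | v.support ⊆ G} ⊆
        ((G.finsupp (fun _ => (Finset.univ : Finset (ZMod 2 × ZMod 2))) : Finset (VI I)) :
          Set (VI I)) := by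
      intro t ht
      rw [Finset.mem_coe, Finset.mem_finsupp_iff]
      exact ⟨ht, fun i _ => Finset.mem_univ _⟩
    exact (Finset.finite_toSet _).subset this
  set D : Submodule ℂ A := Submodule.span ℂ (W '' {v : VI I | v.support ⊆ G}) with hD
  have hmem : ∀ v : VI I, v.support ⊆ G → W v ∈ D := fun v hv =>
    Submodule.subset_span ⟨v, hv, rfl⟩
  have h1 : (1 : A) ∈ D := by
    rw [← hW.zero]
    exact hmem 0 (by simp)
  have hmul : ∀ a ∈ D, ∀ b ∈ D, a * b ∈ D := by
    intro a ha b hb
    induction ha using Submodule.span_induction with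
    | mem a ha =>
      obtain ⟨v, hv, rfl⟩ := ha
      induction hb using Submodule.span_induction with
      | mem b hb =>
        obtain ⟨w, hw, rfl⟩ := hb
        rw [hW.mul]
        refine Submodule.smul_mem _ _ (hmem _ ?_)
        exact (Finsupp.support_add).trans (Finset.union_subset hv hw)
      | zero => rw [mul_zero]; exact zero_mem _
      | add a b _ _ ha hb => rw [mul_add]; exact add_mem ha hb
      | smul r a _ ha => rw [mul_smul_comm]; exact Submodule.smul_mem _ _ ha
    | zero => rw [zero_mul]; exact zero_mem _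
    | add a b _ _ ha hb => rw [add_mul]; exact add_mem ha hb
    | smul r a _ ha => rw [smul_mul_assoc]; exact Submodule.smul_mem _ _ ha
  have hstar : ∀ a ∈ D, star a ∈ D := by
    intro a ha
    induction ha using Submodule.span_induction with
    | mem a ha =>
      obtain ⟨v, hv, rfl⟩ := ha
      rw [hW.adj]
      exact Submodule.smul_mem _ _ (hmem _ hv)
    | zero => rw [star_zero]; exact zero_mem _
    | add a b _ _ ha hb => rw [star_add]; exact add_mem ha hb
    | smul r a _ ha => rw [star_smul]; exact Submodule.smul_mem _ _ ha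
  set S := hfin.toFinset with hS
  set c : VI I →₀ ℂ := ∑ v ∈ S, Finsupp.single v (τ (star (W v) * x)) with hc
  have e0 : Finsupp.linearCombination ℂ W c = ∑ v ∈ S, τ (star (W v) * x) • W v := by
    rw [hc, map_sum]
    exact Finset.sum_congr rfl fun v _ => by rw [Finsupp.linearCombination_single]
  have hp : IsProj τ D x (Finsupp.linearCombination ℂ W c) := by
    constructor
    · rw [e0]
      exact Submodule.sum_mem _ fun v hv =>
        Submodule.smul_mem _ _ (hmem v (by rw [hS, Set.Finite.mem_toFinset] at hv; exact hv))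
    · intro d hd
      induction hd using Submodule.span_induction with
      | mem a ha =>
        obtain ⟨v, hv, rfl⟩ := ha
        rw [e0, Finset.mul_sum, map_sum, Finset.sum_eq_single v]
        · rw [mul_smul_comm, map_smul, hW.on v v, if_pos rfl, smul_eq_mul, mul_one]
        · intro w _ hw
          rw [mul_smul_comm, map_smul, hW.on v w, if_neg (Ne.symm hw), smul_zero]
        · intro hv'
          exact absurd (by rw [hS, Set.Finite.mem_toFinset]; exact hv) hv'
      | zero => simp
      | add a b _ _ ha hb => rw [star_add, add_mul, add_mul, map_add, map_add, ha, hb]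
      | smul r a _ ha => rw [star_smul, smul_mul_assoc, smul_mul_assoc, map_smul, map_smul, ha]
  refine ⟨c, lt_of_le_of_lt (hp.best h (d := Finsupp.linearCombination ℂ W c0) ?_) hc0,
    hp.norm_le h h1 hmul hstar⟩
  rw [Finsupp.linearCombination_apply, Finsupp.sum]
  refine Submodule.sum_mem _ fun v hv => Submodule.smul_mem _ _ (hmem v ?_)
  exact Finset.subset_biUnion_of_mem (fun v : VI I => v.support) hv

end

/-! ### Pushing strings along embeddings -/

/-- the string over `I` given by a string over `J` and an embedding -/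
noncomputable def push (f : J ↪ I) (v : VI J) : VI I := Finsupp.embDomain f v

theorem push_add (f : J ↪ I) (v w : VI J) : push f (v + w) = push f v + push f w :=
  Finsupp.embDomain_add f v w

theorem push_zero (f : J ↪ I) : push f 0 = 0 := Finsupp.embDomain_zero f

theorem push_inj (f : J ↪ I) : Function.Injective (push f) := Finsupp.embDomain_injective f

theorem bfI_push (f : J ↪ I) (v w : VI J) : bfI (push f v) (push f w) = bfI v w := by
  unfold bfI push
  rw [Finsupp.sum_embDomain]
  refine Finsupp.sum_congr fun i _ => ?_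
  rw [Finsupp.embDomain_apply_self]

theorem PSys.comp {A : Type} [Ring A] [StarRing A] [Algebra ℂ A] {τ : A →ₗ[ℂ] ℂ} {W : VI I → A}
    (hW : PSys τ W) (f : J ↪ I) : PSys τ (fun v => W (push f v)) := by
  refine ⟨?_, ?_, ?_, ?_, ?_⟩
  · rw [push_zero]; exact hW.zero
  · intro v w
    rw [hW.mul, bfI_push, push_add]
  · intro v
    rw [hW.adj, bfI_push]
  · rw [push_zero]; exact hW.trace_zero
  · intro v hv
    refine hW.trace_ne _ fun h => hv (push_inj f ?_)
    rw [h, push_zero]

theorem push_congr {f g : J ↪ I} {v : VI J} (h : ∀ i ∈ v.support, f i = g i) :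
    push f v = push g v := by
  unfold push
  rw [Finsupp.embDomain_eq_mapDomain, Finsupp.embDomain_eq_mapDomain]
  exact Finsupp.mapDomain_congr h

theorem push_push {K : Type} (f : J ↪ I) (g : I ↪ K) (v : VI J) :
    push g (push f v) = push (f.trans g) v := by
  unfold push
  rw [Finsupp.embDomain_eq_mapDomain, Finsupp.embDomain_eq_mapDomain,
    Finsupp.embDomain_eq_mapDomain, ← Finsupp.mapDomain_comp]
  rfl

theorem exists_push {f : J ↪ I} {v : VI I} (h : ∀ i ∈ v.support, i ∈ Set.range f) :
    ∃ w, push f w = v := by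
  refine ⟨Finsupp.comapDomain f v f.injective.injOn, ?_⟩
  unfold push
  rw [Finsupp.embDomain_eq_mapDomain]
  exact Finsupp.mapDomain_comapDomain f f.injective v (fun i hi => h i hi)

/-! ### Formal linear combinations -/

/-- the product of formal linear combinations -/
noncomputable def mulc (a b : VI J →₀ ℂ) : VI J →₀ ℂ :=
  a.sum fun v s => b.sum fun w t => Finsupp.single (v + w) (s * t * sg (bfI v w))

/-- the adjoint of a formal linear combination -/
noncomputable def starc (a : VI J →₀ ℂ) : VI J →₀ ℂ :=
  a.sum fun v s => Finsupp.single v (star s * sg (bfI v v))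

section

variable {A : Type} [Ring A] [StarRing A] [Algebra ℂ A] [StarModule ℂ A] {τ : A →ₗ[ℂ] ℂ}
  {V : VI J → A}

theorem lc_mul (hV : PSys τ V) (a b : VI J →₀ ℂ) :
    Finsupp.linearCombination ℂ V a * Finsupp.linearCombination ℂ V b =
      Finsupp.linearCombination ℂ V (mulc a b) := by
  have e : Finsupp.linearCombination ℂ V (mulc a b) = ∑ v ∈ a.support, ∑ w ∈ b.support,
      (a v * b w * sg (bfI v w)) • V (v + w) := by
    unfold mulc
    simp only [Finsupp.sum, map_sum, Finsupp.linearCombination_single]
  rw [e, Finsupp.linearCombination_apply, Finsupp.linearCombination_apply, Finsupp.sum,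
    Finsupp.sum, Finset.sum_mul]
  refine Finset.sum_congr rfl fun v _ => ?_
  rw [Finset.mul_sum]
  refine Finset.sum_congr rfl fun w _ => ?_
  rw [smul_mul_smul_comm, hV.mul, smul_smul]

theorem lc_star (hV : PSys τ V) (a : VI J →₀ ℂ) :
    star (Finsupp.linearCombination ℂ V a) = Finsupp.linearCombination ℂ V (starc a) := by
  unfold starc
  simp only [Finsupp.linearCombination_apply ℂ a, Finsupp.sum, star_sum, map_sum,
    Finsupp.linearCombination_single]
  refine Finset.sum_congr rfl fun v _ => ?_
  rw [star_smul, hV.adj, smul_smul]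

theorem lc_one (hV : PSys τ V) : (1 : A) = Finsupp.linearCombination ℂ V (Finsupp.single 0 1) := by
  rw [Finsupp.linearCombination_single, one_smul, hV.zero]

theorem lc_trace (hV : PSys τ V) (a : VI J →₀ ℂ) :
    τ (Finsupp.linearCombination ℂ V a) = a 0 := by
  classical
  rw [Finsupp.linearCombination_apply, Finsupp.sum, map_sum]
  by_cases h0 : (0 : VI J) ∈ a.support
  · rw [Finset.sum_eq_single_of_mem 0 h0]
    · rw [map_smul, hV.trace_zero, smul_eq_mul, mul_one]
    · intro v _ hv
      rw [map_smul, hV.trace_ne v hv, smul_zero]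
  · rw [Finsupp.notMem_support_iff.1 h0]
    refine Finset.sum_eq_zero fun v hv => ?_
    rw [map_smul, hV.trace_ne v (fun h => h0 (h ▸ hv)), smul_zero]

/-- powers of formal linear combinations -/
noncomputable def powc (a : VI J →₀ ℂ) : ℕ → (VI J →₀ ℂ)
  | 0 => Finsupp.single 0 1
  | k + 1 => mulc (powc a k) a

theorem lc_pow (hV : PSys τ V) (a : VI J →₀ ℂ) (k : ℕ) :
    (Finsupp.linearCombination ℂ V a) ^ k = Finsupp.linearCombination ℂ V (powc a k) := by
  induction k with
  | zero => rw [pow_zero]; exact lc_one hV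
  | succ k ih => rw [pow_succ, ih, lc_mul hV]; rfl

end

open Pool.Agent.H467F (TW) in
theorem lc_norm_le {A B : Type} [CStarAlgebra A] [CStarAlgebra B] {τ : A →ₗ[ℂ] ℂ} {σ : B →ₗ[ℂ] ℂ}
    (hτ : TW τ) (hσ : TW σ) {V : VI J → A} {V' : VI J → B} (hV : PSys τ V) (hV' : PSys σ V')
    (a : VI J →₀ ℂ) :
    ‖Finsupp.linearCombination ℂ V a‖ ≤ ‖Finsupp.linearCombination ℂ V' a‖ := by
  refine norm_le_of_mom hτ _ _ (norm_nonneg _) fun k => ?_
  have h1 := mom_le hσ (Finsupp.linearCombination ℂ V' a) k
  rw [lc_star hV', lc_mul hV', lc_pow hV', lc_trace hV'] at h1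
  rw [lc_star hV, lc_mul hV, lc_pow hV, lc_trace hV]
  exact h1

end Pool.Agent.K6.H69
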