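import Pool.Agent.K6.H69.SimpA
import Pool.Agent.H504R3.Bridge

/-!
Formulas are bounded and uniformly continuous for the 2-norm on bounded sets.
-/

set_option autoImplicit false
set_option linter.unusedSectionVars false

open scoped InnerProductSpace ComplexOrder

namespace Pool.Agent.K6.H69

open Pool.Agent.Helper278
open Pool.Agent.H504R3 (TVN)
open Pool.Agent.H504R3.S (Tm Fm str Str)

theorem opNorm_nonneg (T : TVN) (x : T.E) : 0 ≤ T.opNorm x := norm_nonneg _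

theorem opNorm_add_le (T : TVN) (x y : T.E) : T.opNorm (x + y) ≤ T.opNorm x + T.opNorm y :=
  norm_add_le _ _

theorem opNorm_mul_le (T : TVN) (x y : T.E) : T.opNorm (x * y) ≤ T.opNorm x * T.opNorm y :=
  norm_mul_le (x : T.H →L[ℂ] T.H) y

theorem opNorm_star (T : TVN) (x : T.E) : T.opNorm (star x) = T.opNorm x :=
  norm_star (x : T.H →L[ℂ] T.H)

theorem opNorm_smul (T : TVN) (c : ℂ) (x : T.E) : T.opNorm (c • x) = ‖c‖ * T.opNorm x :=
  norm_smul c (x : T.H →L[ℂ] T.H)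

theorem opNorm_zero (T : TVN) : T.opNorm 0 = 0 := norm_zero

theorem opNorm_one_le (T : TVN) : T.opNorm 1 ≤ 1 :=
  ContinuousLinearMap.norm_id_le

theorem n2_eq_norm2 (T : TVN) (x : T.E) : (str T).norm2 x = n2 T.τ x := rfl

theorem n2_le_opNorm (T : TVN) (x : T.E) : n2 T.τ x ≤ T.opNorm x := by
  have h := (T.n2_mul_le x 1).1
  rwa [mul_one, Pool.Agent.H504R3.n2_one T.trAlg, mul_one] at h

theorem abs_tau_le (T : TVN) (x : T.E) : ‖T.τ x‖ ≤ n2 T.τ x := by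
  have h1 := T.trAlg.cauchy 1 x
  rwa [star_one, one_mul, Pool.Agent.H504R3.n2_one T.trAlg, one_mul] at h1

/-- the ball of radius `r` -/
abbrev BallE (T : TVN) (r : ℕ) : Type := {y : T.E // T.opNorm y ≤ r}

instance ball_nonempty (T : TVN) (r : ℕ) : Nonempty (BallE T r) :=
  ⟨⟨0, by
    rw [opNorm_zero]
    exact Nat.cast_nonneg r⟩⟩

/-- the value of a term -/
noncomputable def tv (T : TVN) {V : Type} (t : Tm V) (x : V → T.E) : T.E := t.val (str T) x

/-- the value of a formula -/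
noncomputable def fv (T : TVN) {n : ℕ} (φ : Fm n) (x : Fin n → T.E) : ℝ := φ.val (str T) x

section

variable (T : TVN) {V : Type} (x : V → T.E) (s t : Tm V) (c : ℂ)

theorem tv_var (v : V) : tv T (.var v) x = x v := rfl
theorem tv_one : tv T .one x = 1 := rfl
theorem tv_add : tv T (.add s t) x = tv T s x + tv T t x := rfl
theorem tv_mul : tv T (.mul s t) x = tv T s x * tv T t x := rfl
theorem tv_adj : tv T (.adj s) x = star (tv T s x) := rfl
theorem tv_scal : tv T (.scal c s) x = c • tv T s x := rfl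

variable {n : ℕ} (z : Fin n → T.E)

theorem fv_re (t : Tm (Fin n)) : fv T (.re t) z = (T.τ (tv T t z)).re := rfl
theorem fv_im (t : Tm (Fin n)) : fv T (.im t) z = (T.τ (tv T t z)).im := rfl
theorem fv_nrm (t : Tm (Fin n)) : fv T (.nrm t) z = n2 T.τ (tv T t z) := rfl
theorem fv_conn {k : ℕ} (u : C(Fin k → ℝ, ℝ)) (φ : Fin k → Fm n) :
    fv T (.conn u φ) z = u fun i => fv T (φ i) z := rfl
theorem fv_sup (r : ℕ) (φ : Fm (n + 1)) :
    fv T (.sup r φ) z = ⨆ y : BallE T r, fv T φ (Fin.cons y.1 z) := rfl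
theorem fv_inf (r : ℕ) (φ : Fm (n + 1)) :
    fv T (.inf r φ) z = ⨅ y : BallE T r, fv T φ (Fin.cons y.1 z) := rfl

end

/-- terms are bounded on bounded sets -/
theorem tm_bdd (T : TVN) {V : Type} (t : Tm V) (ρ : ℝ) : ∃ C : ℝ, 0 ≤ C ∧ ∀ x : V → T.E,
    (∀ l, T.opNorm (x l) ≤ ρ) → T.opNorm (tv T t x) ≤ C := by
  induction t with
  | var v => exact ⟨max ρ 0, le_max_right _ _, fun x hx => (hx v).trans (le_max_left _ _)⟩
  | one => exact ⟨1, zero_le_one, fun x _ => opNorm_one_le T⟩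
  | add s t hs ht =>
    obtain ⟨C, hC, h1⟩ := hs
    obtain ⟨C', hC', h2⟩ := ht
    exact ⟨C + C', add_nonneg hC hC', fun x hx =>
      (opNorm_add_le T _ _).trans (add_le_add (h1 x hx) (h2 x hx))⟩
  | mul s t hs ht =>
    obtain ⟨C, hC, h1⟩ := hs
    obtain ⟨C', hC', h2⟩ := ht
    exact ⟨C * C', mul_nonneg hC hC', fun x hx =>
      (opNorm_mul_le T _ _).trans (mul_le_mul (h1 x hx) (h2 x hx) (opNorm_nonneg T _) hC)⟩
  | adj s hs =>
    obtain ⟨C, hC, h1⟩ := hs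
    exact ⟨C, hC, fun x hx => (opNorm_star T _).le.trans (h1 x hx)⟩
  | scal c s hs =>
    obtain ⟨C, hC, h1⟩ := hs
    exact ⟨‖c‖ * C, mul_nonneg (norm_nonneg c) hC, fun x hx =>
      (opNorm_smul T _ _).le.trans (mul_le_mul_of_nonneg_left (h1 x hx) (norm_nonneg c))⟩

/-- terms are Lipschitz on bounded sets -/
theorem tm_lip (T : TVN) {V : Type} (t : Tm V) (ρ : ℝ) : ∃ L : ℝ, 0 ≤ L ∧
    ∀ (x y : V → T.E) (δ : ℝ), 0 ≤ δ → (∀ l, T.opNorm (x l) ≤ ρ) → (∀ l, T.opNorm (y l) ≤ ρ) →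
      (∀ l, n2 T.τ (x l - y l) ≤ δ) →
      n2 T.τ (tv T t x - tv T t y) ≤ L * δ := by
  have h := T.trAlg
  induction t with
  | var v => exact ⟨1, zero_le_one, fun x y δ _ _ _ hd => by rw [one_mul]; exact hd v⟩
  | one =>
    refine ⟨0, le_refl _, fun x y δ _ _ _ _ => ?_⟩
    rw [tv_one, tv_one, sub_self, h.n2_zero, zero_mul]
  | add s t hs ht =>
    obtain ⟨L, hL, h1⟩ := hs
    obtain ⟨L', hL', h2⟩ := ht
    refine ⟨L + L', add_nonneg hL hL', fun x y δ h0 hx hy hd => ?_⟩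
    rw [tv_add, tv_add, add_sub_add_comm, add_mul]
    exact (h.n2_add_le _ _).trans (add_le_add (h1 x y δ h0 hx hy hd) (h2 x y δ h0 hx hy hd))
  | mul s t hs ht =>
    obtain ⟨L, hL, h1⟩ := hs
    obtain ⟨L', hL', h2⟩ := ht
    obtain ⟨C, hC, h3⟩ := tm_bdd T s ρ
    obtain ⟨C', hC', h4⟩ := tm_bdd T t ρ
    refine ⟨C * L' + C' * L, by positivity, fun x y δ h0 hx hy hd => ?_⟩
    rw [tv_mul, tv_mul]
    set a : T.E := tv T s x
    set b : T.E := tv T t x
    set a' : T.E := tv T s y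
    set b' : T.E := tv T t y
    have e : a * b - a' * b' = a * (b - b') + (a - a') * b' := by noncomm_ring
    rw [e]
    have e1 := (T.n2_mul_le a (b - b')).1
    have e2 := (T.n2_mul_le b' (a - a')).2
    have e3 : T.opNorm a ≤ C := h3 x hx
    have e4 : T.opNorm b' ≤ C' := h4 y hy
    have e5 : n2 T.τ (a - a') ≤ L * δ := h1 x y δ h0 hx hy hd
    have e6 : n2 T.τ (b - b') ≤ L' * δ := h2 x y δ h0 hx hy hd
    have e7 : T.opNorm a * n2 T.τ (b - b') ≤ C * (L' * δ) :=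
      mul_le_mul e3 e6 (n2_nonneg _ _) hC
    have e8 : n2 T.τ (a - a') * T.opNorm b' ≤ (L * δ) * C' :=
      mul_le_mul e5 e4 (opNorm_nonneg T _) (by positivity)
    have e9 := h.n2_add_le (a * (b - b')) ((a - a') * b')
    nlinarith
  | adj s hs =>
    obtain ⟨L, hL, h1⟩ := hs
    refine ⟨L, hL, fun x y δ h0 hx hy hd => ?_⟩
    rw [tv_adj, tv_adj, ← star_sub, h.n2_star]
    exact h1 x y δ h0 hx hy hd
  | scal c s hs =>
    obtain ⟨L, hL, h1⟩ := hs
    refine ⟨‖c‖ * L, by positivity, fun x y δ h0 hx hy hd => ?_⟩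
    rw [tv_scal, tv_scal, ← smul_sub, Pool.Agent.H504R3.n2_smul h, mul_assoc]
    exact mul_le_mul_of_nonneg_left (h1 x y δ h0 hx hy hd) (norm_nonneg c)

theorem abs_iSup_sub_le {α : Type} [Nonempty α] {f g : α → ℝ} {ε C : ℝ} (hf : ∀ y, |f y| ≤ C)
    (hg : ∀ y, |g y| ≤ C) (h : ∀ y, |f y - g y| ≤ ε) : |(⨆ y, f y) - ⨆ y, g y| ≤ ε := by
  have b1 : BddAbove (Set.range f) := ⟨C, by rintro _ ⟨y, rfl⟩; exact (abs_le.1 (hf y)).2⟩
  have b2 : BddAbove (Set.range g) := ⟨C, by rintro _ ⟨y, rfl⟩; exact (abs_le.1 (hg y)).2⟩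
  rw [abs_le]
  constructor
  · have : (⨆ y, g y) ≤ (⨆ y, f y) + ε := ciSup_le fun y => by
      have h1 := (abs_le.1 (h y)).1
      have h2 := le_ciSup b1 y
      linarith
    linarith
  · have : (⨆ y, f y) ≤ (⨆ y, g y) + ε := ciSup_le fun y => by
      have h1 := (abs_le.1 (h y)).2
      have h2 := le_ciSup b2 y
      linarith
    linarith

theorem abs_iInf_sub_le {α : Type} [Nonempty α] {f g : α → ℝ} {ε C : ℝ} (hf : ∀ y, |f y| ≤ C)
    (hg : ∀ y, |g y| ≤ C) (h : ∀ y, |f y - g y| ≤ ε) : |(⨅ y, f y) - ⨅ y, g y| ≤ ε := by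
  have b1 : BddBelow (Set.range f) := ⟨-C, by rintro _ ⟨y, rfl⟩; exact (abs_le.1 (hf y)).1⟩
  have b2 : BddBelow (Set.range g) := ⟨-C, by rintro _ ⟨y, rfl⟩; exact (abs_le.1 (hg y)).1⟩
  rw [abs_le]
  constructor
  · have : (⨅ y, g y) - ε ≤ (⨅ y, f y) := le_ciInf fun y => by
      have h1 := (abs_le.1 (h y)).1
      have h2 := ciInf_le b2 y
      linarith
    linarith
  · have : (⨅ y, f y) - ε ≤ (⨅ y, g y) := le_ciInf fun y => by
      have h1 := (abs_le.1 (h y)).2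
      have h2 := ciInf_le b1 y
      linarith
    linarith

theorem abs_iSup_le {α : Type} [Nonempty α] {f : α → ℝ} {C : ℝ} (hf : ∀ y, |f y| ≤ C) :
    |⨆ y, f y| ≤ C := by
  have b1 : BddAbove (Set.range f) := ⟨C, by rintro _ ⟨y, rfl⟩; exact (abs_le.1 (hf y)).2⟩
  obtain ⟨y⟩ := (inferInstance : Nonempty α)
  rw [abs_le]
  exact ⟨(abs_le.1 (hf y)).1.trans (le_ciSup b1 y), ciSup_le fun y => (abs_le.1 (hf y)).2⟩

theorem abs_iInf_le {α : Type} [Nonempty α] {f : α → ℝ} {C : ℝ} (hf : ∀ y, |f y| ≤ C) :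
    |⨅ y, f y| ≤ C := by
  have b1 : BddBelow (Set.range f) := ⟨-C, by rintro _ ⟨y, rfl⟩; exact (abs_le.1 (hf y)).1⟩
  obtain ⟨y⟩ := (inferInstance : Nonempty α)
  rw [abs_le]
  exact ⟨le_ciInf fun y => (abs_le.1 (hf y)).1, (ciInf_le b1 y).trans (abs_le.1 (hf y)).2⟩

theorem cons_le (T : TVN) {n : ℕ} {ρ : ℝ} {r : ℕ} {z : Fin n → T.E}
    (hz : ∀ l, T.opNorm (z l) ≤ ρ) (w : BallE T r) (l : Fin (n + 1)) :
    T.opNorm ((Fin.cons w.1 z : Fin (n + 1) → T.E) l) ≤ max ρ r := by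
  refine Fin.cases ?_ (fun l => ?_) l
  · rw [Fin.cons_zero]
    exact w.2.trans (le_max_right _ _)
  · rw [Fin.cons_succ]
    exact (hz l).trans (le_max_left _ _)

/-- formulas are bounded on bounded sets -/
theorem fm_bdd (T : TVN) {n : ℕ} (φ : Fm n) : ∀ ρ : ℝ, ∃ C : ℝ, 0 ≤ C ∧ ∀ x : Fin n → T.E,
    (∀ l, T.opNorm (x l) ≤ ρ) → |fv T φ x| ≤ C := by
  induction φ with
  | re t =>
    intro ρ
    obtain ⟨C, hC, h1⟩ := tm_bdd T t ρ
    refine ⟨C, hC, fun x hx => ?_⟩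
    exact (Complex.abs_re_le_norm _).trans ((abs_tau_le T _).trans
      ((n2_le_opNorm T _).trans (h1 x hx)))
  | im t =>
    intro ρ
    obtain ⟨C, hC, h1⟩ := tm_bdd T t ρ
    refine ⟨C, hC, fun x hx => ?_⟩
    exact (Complex.abs_im_le_norm _).trans ((abs_tau_le T _).trans
      ((n2_le_opNorm T _).trans (h1 x hx)))
  | nrm t =>
    intro ρ
    obtain ⟨C, hC, h1⟩ := tm_bdd T t ρ
    refine ⟨C, hC, fun x hx => ?_⟩
    rw [fv_nrm, abs_of_nonneg (n2_nonneg _ _)]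
    exact (n2_le_opNorm T _).trans (h1 x hx)
  | @conn n k u φ ih =>
    intro ρ
    choose C hC h1 using fun i => ih i ρ
    have hcomp : IsCompact (Set.univ.pi fun i : Fin k => Set.Icc (-(C i)) (C i)) :=
      isCompact_univ_pi fun i => isCompact_Icc
    obtain ⟨D, hD⟩ := hcomp.exists_bound_of_continuousOn (f := fun z => u z) u.continuous.continuousOn
    refine ⟨max D 0, le_max_right _ _, fun x hx => ?_⟩
    refine le_trans ?_ (le_max_left _ _)
    refine hD _ ?_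
    rw [Set.mem_univ_pi]
    intro i
    rw [Set.mem_Icc, ← abs_le]
    exact h1 i x hx
  | sup r φ ih =>
    intro ρ
    obtain ⟨C, hC, h1⟩ := ih (max ρ r)
    refine ⟨C, hC, fun x hx => ?_⟩
    rw [fv_sup]
    refine abs_iSup_le fun y => h1 _ fun l => ?_
    refine Fin.cases ?_ (fun l => ?_) l
    · rw [Fin.cons_zero]
      exact y.2.trans (le_max_right _ _)
    · rw [Fin.cons_succ]
      exact (hx l).trans (le_max_left _ _)
  | inf r φ ih =>
    intro ρ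
    obtain ⟨C, hC, h1⟩ := ih (max ρ r)
    refine ⟨C, hC, fun x hx => ?_⟩
    rw [fv_inf]
    refine abs_iInf_le fun y => h1 _ fun l => ?_
    refine Fin.cases ?_ (fun l => ?_) l
    · rw [Fin.cons_zero]
      exact y.2.trans (le_max_right _ _)
    · rw [Fin.cons_succ]
      exact (hx l).trans (le_max_left _ _)

theorem abs_n2_sub_le (T : TVN) (a b : T.E) : |n2 T.τ a - n2 T.τ b| ≤ n2 T.τ (a - b) := by
  have h := T.trAlg
  rw [abs_le]
  constructor
  · have h1 := h.n2_tri b a 0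
    rw [sub_zero, sub_zero, h.n2_sub_comm b a] at h1
    linarith
  · have h1 := h.n2_tri a b 0
    rw [sub_zero, sub_zero] at h1
    linarith

/-- formulas are uniformly continuous on bounded sets -/
theorem fm_cont (T : TVN) {n : ℕ} (φ : Fm n) : ∀ (ρ ε : ℝ), 0 < ε → ∃ δ : ℝ, 0 < δ ∧
    ∀ x y : Fin n → T.E, (∀ l, T.opNorm (x l) ≤ ρ) → (∀ l, T.opNorm (y l) ≤ ρ) →
      (∀ l, n2 T.τ (x l - y l) ≤ δ) → |fv T φ x - fv T φ y| ≤ ε := by
  have key : ∀ (m : ℕ) (t : Tm (Fin m)) (ρ ε : ℝ), 0 < ε → ∃ δ : ℝ, 0 < δ ∧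
      ∀ x y : Fin m → T.E, (∀ l, T.opNorm (x l) ≤ ρ) → (∀ l, T.opNorm (y l) ≤ ρ) →
        (∀ l, n2 T.τ (x l - y l) ≤ δ) →
        n2 T.τ (tv T t x - tv T t y) ≤ ε := by
    intro m t ρ ε hε
    obtain ⟨L, hL, h1⟩ := tm_lip T t ρ
    refine ⟨ε / (L + 1), by positivity, fun x y hx hy hd => ?_⟩
    refine (h1 x y _ (by positivity) hx hy hd).trans ?_
    rw [← mul_div_assoc, div_le_iff₀ (by positivity)]
    nlinarith
  induction φ with
  | re t =>
    intro ρ ε hε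
    obtain ⟨δ, hδ, h1⟩ := key _ t ρ ε hε
    refine ⟨δ, hδ, fun x y hx hy hd => ?_⟩
    rw [fv_re, fv_re, ← Complex.sub_re, ← map_sub]
    exact (Complex.abs_re_le_norm _).trans ((abs_tau_le T _).trans (h1 x y hx hy hd))
  | im t =>
    intro ρ ε hε
    obtain ⟨δ, hδ, h1⟩ := key _ t ρ ε hε
    refine ⟨δ, hδ, fun x y hx hy hd => ?_⟩
    rw [fv_im, fv_im, ← Complex.sub_im, ← map_sub]
    exact (Complex.abs_im_le_norm _).trans ((abs_tau_le T _).trans (h1 x y hx hy hd))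
  | nrm t =>
    intro ρ ε hε
    obtain ⟨δ, hδ, h1⟩ := key _ t ρ ε hε
    exact ⟨δ, hδ, fun x y hx hy hd => (abs_n2_sub_le T _ _).trans (h1 x y hx hy hd)⟩
  | @conn n k u φ ih =>
    intro ρ ε hε
    choose C hC h1 using fun i => fm_bdd T (φ i) ρ
    have hcomp : IsCompact (Set.univ.pi fun i : Fin k => Set.Icc (-(C i)) (C i)) :=
      isCompact_univ_pi fun i => isCompact_Icc
    have huc := hcomp.uniformContinuousOn_of_continuous (f := fun z => u z) u.continuous.continuousOn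
    rw [Metric.uniformContinuousOn_iff] at huc
    obtain ⟨η, hη, h2⟩ := huc ε hε
    choose δ hδ h3 using fun i => ih i ρ (η / 2) (half_pos hη)
    obtain ⟨δ0, hδ0, h4⟩ : ∃ δ0 : ℝ, 0 < δ0 ∧ ∀ i, δ0 ≤ δ i := by
      rcases Nat.eq_zero_or_pos k with rfl | hk
      · exact ⟨1, one_pos, fun i => i.elim0⟩
      · have : Nonempty (Fin k) := ⟨⟨0, hk⟩⟩
        obtain ⟨i0, hi0⟩ := Finite.exists_min δ
        exact ⟨δ i0, hδ i0, hi0⟩
    refine ⟨δ0, hδ0, fun x y hx hy hd => ?_⟩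
    have hm : ∀ z : Fin n → T.E, (∀ l, T.opNorm (z l) ≤ ρ) →
        (fun i => fv T (φ i) z) ∈ Set.univ.pi fun i : Fin k => Set.Icc (-(C i)) (C i) := by
      intro z hz
      rw [Set.mem_univ_pi]
      intro i
      rw [Set.mem_Icc, ← abs_le]
      exact h1 i z hz
    have h5 := h2 _ (hm x hx) _ (hm y hy) (by
      refine lt_of_le_of_lt ((dist_pi_le_iff (half_pos hη).le).2 fun i => ?_) (half_lt_self hη)
      rw [Real.dist_eq]
      exact h3 i x y hx hy fun l => (hd l).trans (h4 i))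
    exact (Real.dist_eq _ _ ▸ h5).le
  | sup r φ ih =>
    intro ρ ε hε
    obtain ⟨C, hC, h1⟩ := fm_bdd T φ (max ρ r)
    obtain ⟨δ, hδ, h2⟩ := ih (max ρ r) ε hε
    refine ⟨δ, hδ, fun x y hx hy hd => ?_⟩
    rw [fv_sup, fv_sup]
    refine abs_iSup_sub_le (fun w => h1 _ (cons_le T hx w)) (fun w => h1 _ (cons_le T hy w)) fun w => ?_
    refine h2 _ _ (cons_le T hx w) (cons_le T hy w) fun l => ?_
    refine Fin.cases ?_ (fun l => ?_) l
    · rw [Fin.cons_zero, Fin.cons_zero]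
      rw [sub_self, T.trAlg.n2_zero]
      exact hδ.le
    · rw [Fin.cons_succ, Fin.cons_succ]
      exact hd l
  | inf r φ ih =>
    intro ρ ε hε
    obtain ⟨C, hC, h1⟩ := fm_bdd T φ (max ρ r)
    obtain ⟨δ, hδ, h2⟩ := ih (max ρ r) ε hε
    refine ⟨δ, hδ, fun x y hx hy hd => ?_⟩
    rw [fv_inf, fv_inf]
    refine abs_iInf_sub_le (fun w => h1 _ (cons_le T hx w)) (fun w => h1 _ (cons_le T hy w)) fun w => ?_
    refine h2 _ _ (cons_le T hx w) (cons_le T hy w) fun l => ?_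
    refine Fin.cases ?_ (fun l => ?_) l
    · rw [Fin.cons_zero, Fin.cons_zero]
      rw [sub_self, T.trAlg.n2_zero]
      exact hδ.le
    · rw [Fin.cons_succ, Fin.cons_succ]
      exact hd l

end Pool.Agent.K6.H69
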