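import Pool.Agent.H504R3.SDefs

/-!
# Types, indiscernible sequences, dividing and simplicity

for the continuous logic of tracial von Neumann algebras (structures `Str`, formulas `Fm`).
-/

set_option autoImplicit false

namespace Pool.Agent.K6.H69

open Pool.Agent.H504R3.S

/-- A complete `n`-type over a set `B` of elements of a structure assigns to every formula
`φ(x, b)` (free variables `x = (x 0, …, x (n-1))`, followed by `m` parameters `b` from `B`) a real
number, the value of `φ(x, b)` at a realization of the type. -/
abbrev TypeMap (M : Str) (B : Set M.carrier) (n : ℕ) : Type :=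
  (m : ℕ) → Fm (n + m) → (Fin m → B) → ℝ

/-- The conditions `φ(x, b i) = p(φ, b)` are finitely satisfiable in `N`, where `x j` ranges over the
operator norm ball of radius `r j`, and where `c i : B → N` (`i` in an index set `J`) are copies of
the parameters: for finitely many formulas `φ`, parameters `b` and indices `i`, and every `ε > 0`,
there is `a` in `N` with `|φ(a, c i b) - p(φ, b)| < ε`. -/
def FinSat {M : Str} {B : Set M.carrier} {n : ℕ} (p : TypeMap M B n) (r : Fin n → ℕ)
    (N : Str) {J : Type} (c : J → B → N.carrier) : Prop :=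
  ∀ (S : Finset (J × (Σ m : ℕ, Fm (n + m) × (Fin m → B)))) (ε : ℝ), 0 < ε →
    ∃ a : Fin n → N.carrier, (∀ j, N.nrm (a j) ≤ r j) ∧
      ∀ s ∈ S, |s.2.2.1.val N (Fin.append a fun t => c s.1 (s.2.2.2 t)) -
        p s.2.1 s.2.2.1 s.2.2.2| < ε

/-- `p` is a complete `n`-type over `B` in `M` (in the variables `x j` of the sorts of radius `r j`):
it is finitely satisfiable in `M`. -/
def IsType (M : Str) (B : Set M.carrier) {n : ℕ} (r : Fin n → ℕ) (p : TypeMap M B n) : Prop :=
  FinSat p r M (fun _ : Unit => fun b : B => b.1)

/-- `e` is an elementary embedding of `M` in `N`. -/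
def IsElementary (M N : Str) (e : M.carrier → N.carrier) : Prop :=
  (∀ x, N.nrm (e x) = M.nrm x) ∧
    ∀ (n : ℕ) (φ : Fm n) (x : Fin n → M.carrier), φ.val N (fun t => e (x t)) = φ.val M x

/-- The sequence `c 0, c 1, …` of copies of the tuple `B` in `N` is indiscernible over the subset `A`
of `N`: formulas with parameters from `A` have the same value at `(c (i 0), …, c (i (k-1)))` for all
`i 0 < ⋯ < i (k-1)`. -/
def Indiscernible {B : Type} (N : Str) (A : Set N.carrier) (c : ℕ → B → N.carrier) : Prop :=
  ∀ (k q : ℕ) (φ : Fm q) (v : Fin q → (Fin k × B) ⊕ A) (i i' : Fin k → ℕ),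
    StrictMono i → StrictMono i' →
    φ.val N (fun t => Sum.elim (fun s => c (i s.1) s.2) (fun a => a.1) (v t)) =
      φ.val N (fun t => Sum.elim (fun s => c (i' s.1) s.2) (fun a => a.1) (v t))

/-- The type `p` over `B` divides over the subset `A` of `M`: in some elementary extension `N` of
`M` (a tracial von Neumann algebra) there is a sequence `c 0, c 1, …` of copies of `B`, indiscernible
over `A`, with `c 0 = B`, such that the union of the types `p` over the `c i` is inconsistent (not
finitely satisfiable). -/
def Divides (M : Str) (B : Set M.carrier) {n : ℕ} (r : Fin n → ℕ) (p : TypeMap M B n)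
    (A : Set M.carrier) : Prop :=
  ∃ (N : Str) (e : M.carrier → N.carrier) (c : ℕ → B → N.carrier), N.IsTVN ∧
    IsElementary M N e ∧ (∀ b : B, c 0 b = e b) ∧ Indiscernible N (e '' A) c ∧ ¬ FinSat p r N c

/-- `A` is separable: it has a countable subset that is dense for the 2-norm. -/
def SeparableSet (M : Str) (A : Set M.carrier) : Prop :=
  ∃ S ⊆ A, S.Countable ∧ ∀ x ∈ A, ∀ ε : ℝ, 0 < ε → ∃ y ∈ S, M.norm2 (M.sub x y) < ε

/-- The complete theory of `R` is simple: for every model `M` (a tracial von Neumann algebra
elementarily equivalent to `R`), every set `B` of elements of `M` and every complete type `p` over `B`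
in finitely many variables, there is a separable subset `A` of `B` such that `p` does not divide
over `A`. -/
def IsSimple (R : Str) : Prop :=
  ∀ M : Str, M.IsTVN → M.ElemEq R → ∀ (B : Set M.carrier) (n : ℕ) (r : Fin n → ℕ)
    (p : TypeMap M B n), IsType M B r p → ∃ A ⊆ B, SeparableSet M A ∧ ¬ Divides M B r p A

end Pool.Agent.K6.H69
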