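import Pool.Agent.K6.H69.SimpC
import Pool.Agent.K6.H69.SimpD

/-!
The back-and-forth argument: the values of formulas at linear combinations of Pauli strings.
-/

set_option autoImplicit false
set_option linter.unusedSectionVars false

open scoped InnerProductSpace ComplexOrder

namespace Pool.Agent.K6.H69

open Pool.Agent.Helper278
open Pool.Agent.Helper436.SM (sg)
open Pool.Agent.H504R3 (TVN ON)
open Pool.Agent.H504R3.S (Tm Fm str Str)

variable {I I' J : Type}

/-- linear combinations of strings -/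
noncomputable abbrev lc {T : TVN} (V : VI J → T.E) (a : VI J →₀ ℂ) : T.E :=
  Finsupp.linearCombination ℂ V a

/-- the values of terms at linear combinations of strings -/
theorem tv_lc {n : ℕ} (t : Tm (Fin n)) (a : Fin n → (VI J →₀ ℂ)) : ∃ b : VI J →₀ ℂ,
    ∀ (T : TVN) (V : VI J → T.E), PSys T.τ V → tv T t (fun l => lc V (a l)) = lc V b := by
  induction t with
  | var v => exact ⟨a v, fun T V _ => rfl⟩
  | one => exact ⟨Finsupp.single 0 1, fun T V hV => lc_one hV⟩
  | add s t hs ht =>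
    obtain ⟨b, hb⟩ := hs
    obtain ⟨b', hb'⟩ := ht
    exact ⟨b + b', fun T V hV => by rw [tv_add, hb T V hV, hb' T V hV, lc, lc, lc, map_add]⟩
  | mul s t hs ht =>
    obtain ⟨b, hb⟩ := hs
    obtain ⟨b', hb'⟩ := ht
    exact ⟨mulc b b', fun T V hV => by rw [tv_mul, hb T V hV, hb' T V hV, lc, lc, lc, lc_mul hV]⟩
  | adj s hs =>
    obtain ⟨b, hb⟩ := hs
    exact ⟨starc b, fun T V hV => by rw [tv_adj, hb T V hV, lc, lc, lc_star hV]⟩
  | scal c s hs =>
    obtain ⟨b, hb⟩ := hs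
    exact ⟨c • b, fun T V hV => by rw [tv_scal, hb T V hV, lc, lc, map_smul]⟩

/-- every finite set is in the range of an embedding with prescribed first values -/
theorem ext_emb (f : ℕ ↪ I) (N : ℕ) (G : Finset I) : ∃ g : ℕ ↪ I, (∀ i < N, g i = f i) ∧
    ∀ x ∈ G, x ∈ Set.range g := by
  classical
  induction G using Finset.induction_on with
  | empty => exact ⟨f, fun _ _ => rfl, fun x hx => absurd hx (Finset.notMem_empty x)⟩
  | insert z G hz ih =>
    obtain ⟨g, hg1, hg2⟩ := ih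
    by_cases hzr : z ∈ Set.range g
    · refine ⟨g, hg1, fun x hx => ?_⟩
      rcases Finset.mem_insert.1 hx with rfl | hx
      · exact hzr
      · exact hg2 x hx
    · have hfin : (g ⁻¹' (G : Set I)).Finite := G.finite_toSet.preimage g.injective.injOn
      obtain ⟨m, hm1, hm2⟩ : ∃ m, N ≤ m ∧ m ∉ g ⁻¹' (G : Set I) := by
        obtain ⟨m, hm⟩ := ((Set.finite_Iio N).union hfin).exists_notMem
        rw [Set.mem_union, not_or] at hm
        exact ⟨m, not_lt.1 hm.1, hm.2⟩
      have hinj : Function.Injective (Function.update g m z) := by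
        intro i k hik
        by_cases hi : i = m
        · by_cases hk : k = m
          · rw [hi, hk]
          · rw [hi, Function.update_self, Function.update_of_ne hk] at hik
            exact absurd ⟨k, hik.symm⟩ hzr
        · by_cases hk : k = m
          · rw [hk, Function.update_self, Function.update_of_ne hi] at hik
            exact absurd ⟨i, hik⟩ hzr
          · rw [Function.update_of_ne hi, Function.update_of_ne hk] at hik
            exact g.injective hik
      refine ⟨⟨Function.update g m z, hinj⟩, fun i hi => ?_, fun x hx => ?_⟩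
      · show Function.update g m z i = f i
        rw [Function.update_of_ne (by omega), hg1 i hi]
      · rcases Finset.mem_insert.1 hx with rfl | hx
        · exact ⟨m, Function.update_self _ _ _⟩
        · obtain ⟨i, hi⟩ := hg2 x hx
          refine ⟨i, ?_⟩
          show Function.update g m z i = x
          rw [Function.update_of_ne, hi]
          rintro rfl
          exact hm2 (by rw [Set.mem_preimage, hi]; exact hx)

section

variable {T T' : TVN} {W : VI I → T.E} {W' : VI I' → T'.E}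

/-- The tuples `x` and `x'` are given by the same linear combinations of strings. -/
def Mtch (W : VI I → T.E) (W' : VI I' → T'.E) {n : ℕ} (x : Fin n → T.E) (x' : Fin n → T'.E) :
    Prop :=
  ∃ (f : ℕ ↪ I) (f' : ℕ ↪ I') (a : Fin n → (VI ℕ →₀ ℂ)),
    (x = fun l => lc (fun v => W (push f v)) (a l)) ∧
    (x' = fun l => lc (fun v => W' (push f' v)) (a l))

theorem Mtch.symm {n : ℕ} {x : Fin n → T.E} {x' : Fin n → T'.E} (h : Mtch W W' x x') :
    Mtch W' W x' x := by
  obtain ⟨f, f', a, h1, h2⟩ := h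
  exact ⟨f', f, a, h2, h1⟩

theorem tvn_norm_le (hW : PSys T.τ W) (hW' : PSys T'.τ W') (f : ℕ ↪ I) (f' : ℕ ↪ I')
    (a : VI ℕ →₀ ℂ) :
    T.opNorm (lc (fun v => W (push f v)) a) ≤ T'.opNorm (lc (fun v => W' (push f' v)) a) :=
  lc_norm_le (A := Pool.Agent.H467F.Elt T.N) (B := Pool.Agent.H467F.Elt T'.N) T.tw T'.tw
    (hW.comp f) (hW'.comp f') a

theorem Mtch.step {n : ℕ} {x : Fin n → T.E} {x' : Fin n → T'.E} (hW : PSys T.τ W)
    (hW' : PSys T'.τ W') (h : Mtch W W' x x') (c : VI I →₀ ℂ) :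
    ∃ y' : T'.E, T'.opNorm y' ≤ T.opNorm (lc W c) ∧
      Mtch W W' (Fin.cons (lc W c) x : Fin (n + 1) → T.E) (Fin.cons y' x' : Fin (n + 1) → T'.E) := by
  classical
  obtain ⟨f, f', a, h1, h2⟩ := h
  -- a bound for the supports
  set S : Finset (VI ℕ) := Finset.univ.biUnion (fun l => (a l).support) with hS
  set N : ℕ := S.sup (fun v => v.support.sup id) + 1 with hN
  have hNb : ∀ l, ∀ v ∈ (a l).support, ∀ i ∈ v.support, i < N := by
    intro l v hv i hi
    have h3 : i ≤ v.support.sup id := Finset.le_sup (f := id) hi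
    have h4 : v ∈ S := Finset.mem_biUnion.2 ⟨l, Finset.mem_univ l, hv⟩
    have h5 : v.support.sup id ≤ S.sup (fun v => v.support.sup id) :=
      Finset.le_sup (f := fun v : VI ℕ => v.support.sup id) h4
    omega
  set G : Finset I := c.support.biUnion (fun v => v.support) with hG
  obtain ⟨g, hg1, hg2⟩ := ext_emb f N G
  have hpre : ∀ v ∈ c.support, ∃ w, push g w = v := fun v hv =>
    exists_push fun i hi => hg2 i (Finset.mem_biUnion.2 ⟨v, hv, hi⟩)
  choose! ρ hρ using hpre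
  set c' : VI ℕ →₀ ℂ := ∑ v ∈ c.support, Finsupp.single (ρ v) (c v) with hc'
  have e1 : lc W c = lc (fun v => W (push g v)) c' := by
    rw [lc, lc, hc', map_sum, Finsupp.linearCombination_apply, Finsupp.sum]
    refine Finset.sum_congr rfl fun v hv => ?_
    rw [Finsupp.linearCombination_single, hρ v hv]
  have e2 : ∀ l, lc (fun v => W (push f v)) (a l) = lc (fun v => W (push g v)) (a l) := by
    intro l
    rw [lc, lc, Finsupp.linearCombination_apply, Finsupp.linearCombination_apply, Finsupp.sum,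
      Finsupp.sum]
    refine Finset.sum_congr rfl fun v hv => ?_
    rw [push_congr (f := f) (g := g) (v := v) fun i hi => (hg1 i (hNb l v hv i hi)).symm]
  refine ⟨lc (fun v => W' (push f' v)) c', ?_, g, f', Fin.cons c' a, ?_, ?_⟩
  · rw [e1]
    exact tvn_norm_le hW' hW f' g c'
  · funext l
    refine Fin.cases ?_ (fun l => ?_) l
    · simp only [Fin.cons_zero]
      exact e1
    · simp only [Fin.cons_succ, h1]
      exact e2 l
  · funext l
    refine Fin.cases ?_ (fun l => ?_) l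
    · simp only [Fin.cons_zero]
    · simp only [Fin.cons_succ, h2]

theorem iSup_le_of_approx {α β : Type} [Nonempty α] {f : α → ℝ} {g : β → ℝ}
    (hg : BddAbove (Set.range g)) (h : ∀ y (ε : ℝ), 0 < ε → ∃ y', f y ≤ g y' + ε) :
    (⨆ y, f y) ≤ ⨆ y, g y := by
  refine ciSup_le fun y => le_of_forall_pos_le_add fun ε hε => ?_
  obtain ⟨y', hy'⟩ := h y ε hε
  have := le_ciSup hg y'
  linarith

theorem le_iInf_of_approx {α β : Type} [Nonempty β] {f : α → ℝ} {g : β → ℝ}
    (hf : BddBelow (Set.range f)) (h : ∀ y (ε : ℝ), 0 < ε → ∃ y', f y' ≤ g y + ε) :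
    (⨅ y, f y) ≤ ⨅ y, g y := by
  refine le_ciInf fun y => le_of_forall_pos_le_add fun ε hε => ?_
  obtain ⟨y', hy'⟩ := h y ε hε
  have := ciInf_le hf y'
  linarith

/-- one step of the back-and-forth argument -/
theorem approx_step (hW : PSys T.τ W) (hd : Dns T.τ W) (hW' : PSys T'.τ W') {n : ℕ}
    (φ : Fm (n + 1)) (ih : ∀ (x : Fin (n + 1) → T.E) (x' : Fin (n + 1) → T'.E),
      Mtch W W' x x' → fv T φ x = fv T' φ x') (x : Fin n → T.E) (x' : Fin n → T'.E)
    (hx : Mtch W W' x x') (r : ℕ) (y : BallE T r) (ε : ℝ) (hε : 0 < ε) :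
    ∃ y' : BallE T' r, |fv T φ (Fin.cons y.1 x) - fv T' φ (Fin.cons y'.1 x')| ≤ ε := by
  obtain ⟨ρ, hρ⟩ : ∃ ρ : ℝ, ∀ l, T.opNorm (x l) ≤ ρ := by
    obtain ⟨ρ, hρ⟩ := (Set.finite_range fun l => T.opNorm (x l)).bddAbove
    exact ⟨ρ, fun l => hρ ⟨l, rfl⟩⟩
  obtain ⟨δ, hδ, h1⟩ := fm_cont T φ (max ρ r) ε hε
  obtain ⟨c, hc1, hc2⟩ := kap (A := Pool.Agent.H467F.Elt T.N) T.tw hW hd y.1 δ hδ
  have hc3 : T.opNorm (lc W c) ≤ r := le_trans hc2 y.2
  obtain ⟨y', hy1, hy2⟩ := hx.step hW hW' c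
  refine ⟨⟨y', hy1.trans hc3⟩, ?_⟩
  rw [← ih _ _ hy2]
  refine h1 _ _ (cons_le T hρ y) (cons_le T hρ (⟨lc W c, hc3⟩ : BallE T r)) fun l => ?_
  refine Fin.cases ?_ (fun l => ?_) l
  · rw [Fin.cons_zero, Fin.cons_zero]
    exact hc1.le
  · rw [Fin.cons_succ, Fin.cons_succ, sub_self, T.trAlg.n2_zero]
    exact hδ.le

/-- **The values of formulas depend only on the pattern.** -/
theorem fv_mtch (hW : PSys T.τ W) (hd : Dns T.τ W) (hW' : PSys T'.τ W') (hd' : Dns T'.τ W') {n : ℕ}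
    (φ : Fm n) : ∀ (x : Fin n → T.E) (x' : Fin n → T'.E), Mtch W W' x x' → fv T φ x = fv T' φ x' := by
  have key : ∀ {m : ℕ} (t : Tm (Fin m)) (x : Fin m → T.E) (x' : Fin m → T'.E), Mtch W W' x x' →
      ∃ (f : ℕ ↪ I) (f' : ℕ ↪ I') (b : VI ℕ →₀ ℂ), tv T t x = lc (fun v => W (push f v)) b ∧
        tv T' t x' = lc (fun v => W' (push f' v)) b := by
    intro m t x x' hx
    obtain ⟨f, f', a, rfl, rfl⟩ := hx
    obtain ⟨b, hb⟩ := tv_lc t a
    exact ⟨f, f', b, hb T _ (hW.comp f), hb T' _ (hW'.comp f')⟩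
  induction φ with
  | re t =>
    intro x x' hx
    obtain ⟨f, f', b, h1, h2⟩ := key t x x' hx
    rw [fv_re, fv_re, h1, h2, lc, lc, lc_trace (hW.comp f), lc_trace (hW'.comp f')]
  | im t =>
    intro x x' hx
    obtain ⟨f, f', b, h1, h2⟩ := key t x x' hx
    rw [fv_im, fv_im, h1, h2, lc, lc, lc_trace (hW.comp f), lc_trace (hW'.comp f')]
  | nrm t =>
    intro x x' hx
    obtain ⟨f, f', b, h1, h2⟩ := key t x x' hx
    rw [fv_nrm, fv_nrm, h1, h2]
    unfold n2
    rw [lc, lc, lc_star (hW.comp f), lc_star (hW'.comp f'), lc_mul (hW.comp f),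
      lc_mul (hW'.comp f'), lc_trace (hW.comp f), lc_trace (hW'.comp f')]
  | @conn n k u φ ih =>
    intro x x' hx
    rw [fv_conn, fv_conn]
    congr 1
    funext i
    exact ih i x x' hx
  | @sup n r φ ih =>
    intro x x' hx
    rw [fv_sup, fv_sup]
    obtain ⟨ρ, hρ⟩ : ∃ ρ : ℝ, ∀ l, T.opNorm (x l) ≤ ρ := by
      obtain ⟨ρ, hρ⟩ := (Set.finite_range fun l => T.opNorm (x l)).bddAbove
      exact ⟨ρ, fun l => hρ ⟨l, rfl⟩⟩
    obtain ⟨ρ', hρ'⟩ : ∃ ρ : ℝ, ∀ l, T'.opNorm (x' l) ≤ ρ := by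
      obtain ⟨ρ, hρ⟩ := (Set.finite_range fun l => T'.opNorm (x' l)).bddAbove
      exact ⟨ρ, fun l => hρ ⟨l, rfl⟩⟩
    obtain ⟨C, _, hC⟩ := fm_bdd T φ (max ρ r)
    obtain ⟨C', _, hC'⟩ := fm_bdd T' φ (max ρ' r)
    have b1 : BddAbove (Set.range fun y : BallE T r => fv T φ (Fin.cons y.1 x)) :=
      ⟨C, by rintro _ ⟨y, rfl⟩; exact (abs_le.1 (hC _ (cons_le T hρ y))).2⟩
    have b2 : BddAbove (Set.range fun y : BallE T' r => fv T' φ (Fin.cons y.1 x')) :=
      ⟨C', by rintro _ ⟨y, rfl⟩; exact (abs_le.1 (hC' _ (cons_le T' hρ' y))).2⟩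
    refine le_antisymm (iSup_le_of_approx b2 fun y ε hε => ?_)
      (iSup_le_of_approx b1 fun y ε hε => ?_)
    · obtain ⟨y', hy'⟩ := approx_step hW hd hW' φ ih x x' hx r y ε hε
      exact ⟨y', by have := (abs_le.1 hy').2; linarith⟩
    · obtain ⟨y', hy'⟩ := approx_step hW' hd' hW φ (fun x x' h => (ih x' x h.symm).symm) x' x
        hx.symm r y ε hε
      exact ⟨y', by have := (abs_le.1 hy').2; linarith⟩
  | @inf n r φ ih =>
    intro x x' hx
    rw [fv_inf, fv_inf]
    obtain ⟨ρ, hρ⟩ : ∃ ρ : ℝ, ∀ l, T.opNorm (x l) ≤ ρ := by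
      obtain ⟨ρ, hρ⟩ := (Set.finite_range fun l => T.opNorm (x l)).bddAbove
      exact ⟨ρ, fun l => hρ ⟨l, rfl⟩⟩
    obtain ⟨ρ', hρ'⟩ : ∃ ρ : ℝ, ∀ l, T'.opNorm (x' l) ≤ ρ := by
      obtain ⟨ρ, hρ⟩ := (Set.finite_range fun l => T'.opNorm (x' l)).bddAbove
      exact ⟨ρ, fun l => hρ ⟨l, rfl⟩⟩
    obtain ⟨C, _, hC⟩ := fm_bdd T φ (max ρ r)
    obtain ⟨C', _, hC'⟩ := fm_bdd T' φ (max ρ' r)
    have b1 : BddBelow (Set.range fun y : BallE T r => fv T φ (Fin.cons y.1 x)) :=
      ⟨-C, by rintro _ ⟨y, rfl⟩; exact (abs_le.1 (hC _ (cons_le T hρ y))).1⟩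
    have b2 : BddBelow (Set.range fun y : BallE T' r => fv T' φ (Fin.cons y.1 x')) :=
      ⟨-C', by rintro _ ⟨y, rfl⟩; exact (abs_le.1 (hC' _ (cons_le T' hρ' y))).1⟩
    refine le_antisymm (le_iInf_of_approx b1 fun y ε hε => ?_)
      (le_iInf_of_approx b2 fun y ε hε => ?_)
    · obtain ⟨y', hy'⟩ := approx_step hW' hd' hW φ (fun x x' h => (ih x' x h.symm).symm) x' x
        hx.symm r y ε hε
      exact ⟨y', by have := (abs_le.1 hy').1; linarith⟩
    · obtain ⟨y', hy'⟩ := approx_step hW hd hW' φ ih x x' hx r y ε hε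
      exact ⟨y', by have := (abs_le.1 hy').1; linarith⟩

/-- formulas at strings -/
theorem fv_strings [Infinite I] (hW : PSys T.τ W) (hd : Dns T.τ W) (hW' : PSys T'.τ W')
    (hd' : Dns T'.τ W') {n : ℕ} (φ : Fm n) (u : Fin n → VI I) (π : I ↪ I') :
    fv T φ (fun l => W (u l)) = fv T' φ (fun l => W' (push π (u l))) := by
  classical
  refine fv_mtch hW hd hW' hd' φ _ _ ?_
  obtain ⟨f, -, hf⟩ := ext_emb (Infinite.natEmbedding I) 0
    (Finset.univ.biUnion (fun l => (u l).support))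
  have hu : ∀ l, ∃ w, push f w = u l := fun l =>
    exists_push fun i hi => hf i (Finset.mem_biUnion.2 ⟨l, Finset.mem_univ l, hi⟩)
  choose w hw using hu
  refine ⟨f, f.trans π, fun l => Finsupp.single (w l) 1, ?_, ?_⟩
  · funext l
    rw [lc, Finsupp.linearCombination_single, one_smul, hw]
  · funext l
    rw [lc, Finsupp.linearCombination_single, one_smul, ← push_push, hw]

end

end Pool.Agent.K6.H69
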