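import Pool.Agent.K6.H69.SimpE
import Pool.Agent.H504R3.Flip

/-!
The theory of the hyperfinite II_1 factor is not simple.
-/

set_option autoImplicit false
set_option linter.unusedSectionVars false

open scoped InnerProductSpace ComplexOrder Topology
open Filter

namespace Pool.Agent.K6.H69

open Pool.Agent.Helper278 hiding sg
open Pool.Agent.Helper436.SM (sg VV bf PauliSys)
open Pool.Agent.Helper436.SM.ExR (sg_add sg_sq sg_zero norm_sg)
open Pool.Agent.H504R3 (TVN ON Cmm)
open Pool.Agent.H504R3.S (Tm Fm str Str)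

/-! ### The hyperfinite factor -/

theorem hyp_psys (T : TVN) (h : T.IsHyperfinite) : ∃ W : VI ℕ → T.E, PSys T.τ W ∧ Dns T.τ W := by
  obtain ⟨j, hc, hd⟩ := h
  have hP := Pool.Agent.H504R3.pauliSys (j := j) (τ := T.τ) hc T.trAlg
  refine ⟨Pool.Agent.H504R3.Ws j, ⟨hP.zero, hP.mul, hP.star, ?_, ?_⟩, ?_⟩
  · rw [hP.trace, if_pos rfl]
  · intro v hv
    rw [hP.trace, if_neg hv]
  · intro x ε hε
    obtain ⟨y, hy, h1⟩ := hd x ε hε
    obtain ⟨F, c, rfl⟩ := Pool.Agent.H504R3.adjoin_le (j := j) hc y hy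
    refine ⟨∑ v ∈ F, Finsupp.single v (c v), ?_⟩
    have e : Finsupp.linearCombination ℂ (Pool.Agent.H504R3.Ws j) (∑ v ∈ F, Finsupp.single v (c v)) =
        ∑ t ∈ F, c t • Pool.Agent.H504R3.Ws j t := by
      rw [map_sum]
      exact Finset.sum_congr rfl fun v _ => by rw [Finsupp.linearCombination_single]
    rw [e]
    exact h1

theorem elemEq_of {I I' : Type} [Infinite I] [Infinite I'] {T T' : TVN} {W : VI I → T.E}
    {W' : VI I' → T'.E} (hW : PSys T.τ W) (hd : Dns T.τ W) (hW' : PSys T'.τ W')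
    (hd' : Dns T'.τ W') : (str T).ElemEq (str T') := by
  intro φ
  have h := fv_mtch hW hd hW' hd' φ Fin.elim0 Fin.elim0
    ⟨Infinite.natEmbedding I, Infinite.natEmbedding I', Fin.elim0, by funext l; exact l.elim0,
      by funext l; exact l.elim0⟩
  exact h

/-! ### Strings with disjoint supports -/

section

variable {I : Type} {A : Type} [Ring A] [StarRing A] [Algebra ℂ A] [StarModule ℂ A]
  {τ : A →ₗ[ℂ] ℂ} {W : VI I → A}

theorem bfI_zero_of {v w : VI I} (h : ∀ i, v i = 0 ∨ w i = 0) : bfI v w = 0 := by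
  unfold bfI Finsupp.sum
  refine Finset.sum_eq_zero fun i hi => ?_
  rcases h i with h | h
  · exact absurd h (Finsupp.mem_support_iff.1 hi)
  · beta_reduce; rw [h]; simp

theorem PSys.comm_of (hW : PSys τ W) {v w : VI I} (h : ∀ i, v i = 0 ∨ w i = 0) :
    W v * W w = W w * W v := by
  rw [hW.mul, hW.mul, bfI_zero_of h, bfI_zero_of (fun i => (h i).symm), add_comm]

theorem single_disj {i k : I} (h : i ≠ k) (a b : ZMod 2 × ZMod 2) :
    ∀ l, (Finsupp.single i a : VI I) l = 0 ∨ (Finsupp.single k b : VI I) l = 0 := by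
  intro l
  by_cases hl : l = i
  · right
    rw [Finsupp.single_eq_of_ne]
    rintro rfl
    exact h hl.symm
  · left
    exact Finsupp.single_eq_of_ne hl

theorem bfI_single (i : I) (a b : ZMod 2 × ZMod 2) :
    bfI (Finsupp.single i a) (Finsupp.single i b) = a.2 * b.1 := by
  unfold bfI
  rw [Finsupp.sum_single_index (by simp), Finsupp.single_eq_same]

/-- the flip of two tensor factors -/
theorem exists_flip (hW : PSys τ W) {i k : I} (hik : i ≠ k) : ∃ u : A, u * u = 1 ∧ star u = u ∧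
    u * W (Finsupp.single i (0, 1)) = W (Finsupp.single k (0, 1)) * u ∧
    ∀ v : VI I, v i = 0 → v k = 0 → u * W v = W v * u := by
  have hxx : ∀ l : I, W (Finsupp.single l (1, 0)) * W (Finsupp.single l (1, 0)) = 1 := by
    intro l
    rw [hW.mul, bfI_single, VI_add_self, hW.zero]
    simp [sg]
  have hzz : ∀ l : I, W (Finsupp.single l (0, 1)) * W (Finsupp.single l (0, 1)) = 1 := by
    intro l
    rw [hW.mul, bfI_single, VI_add_self, hW.zero]
    simp [sg]
  have hzx : ∀ l : I, W (Finsupp.single l (0, 1)) * W (Finsupp.single l (1, 0)) =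
      -(W (Finsupp.single l (1, 0)) * W (Finsupp.single l (0, 1))) := by
    intro l
    rw [hW.mul, hW.mul, bfI_single, bfI_single, add_comm]
    simp [sg]
  have hsx : ∀ l : I, star (W (Finsupp.single l (1, 0))) = W (Finsupp.single l (1, 0)) := by
    intro l
    rw [hW.adj, bfI_single]
    simp [sg]
  have hsz : ∀ l : I, star (W (Finsupp.single l (0, 1))) = W (Finsupp.single l (0, 1)) := by
    intro l
    rw [hW.adj, bfI_single]
    simp [sg]
  have hc : ∀ a b, W (Finsupp.single k a) * W (Finsupp.single i b) =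
      W (Finsupp.single i b) * W (Finsupp.single k a) := fun a b =>
    hW.comm_of (single_disj hik.symm a b)
  obtain ⟨h1, -, h3⟩ := Pool.Agent.H504R3.flip_alg (hxx i) (hzz i) (hzx i) (hxx k) (hzz k) (hzx k)
    (hc _ _) (hc _ _) (hc _ _) (hc _ _)
  have h4 := Pool.Agent.H504R3.flip_star_alg (hzx i) (hzx k) (hc _ _) (hc _ _) (hc _ _) (hc _ _)
  set x := W (Finsupp.single i (1, 0)) with hx
  set z := W (Finsupp.single i (0, 1)) with hz
  set x' := W (Finsupp.single k (1, 0)) with hx'
  set z' := W (Finsupp.single k (0, 1)) with hz'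
  refine ⟨(2⁻¹ : ℂ) • (1 + x * x' + z * z' - x * z * x' * z'), ?_, ?_, ?_, ?_⟩
  · rw [smul_mul_smul_comm, h1, smul_smul]
    norm_num
  · rw [star_smul, star_sub, star_add, star_add, star_one, star_mul, star_mul, star_mul, star_mul,
      star_mul, hx, hz, hx', hz', hsx, hsz, hsx, hsz, ← hx, ← hz, ← hx', ← hz', h4, hc, hc]
    congr 1
    simp
  · rw [smul_mul_assoc, h3, mul_smul_comm]
  · intro v hvi hvk
    have c1 : ∀ a, W (Finsupp.single i a) * W v = W v * W (Finsupp.single i a) := fun a =>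
      hW.comm_of fun l => by
        by_cases hl : l = i
        · right; rw [hl]; exact hvi
        · left; exact Finsupp.single_eq_of_ne hl
    have c2 : ∀ a, W (Finsupp.single k a) * W v = W v * W (Finsupp.single k a) := fun a =>
      hW.comm_of fun l => by
        by_cases hl : l = k
        · right; rw [hl]; exact hvk
        · left; exact Finsupp.single_eq_of_ne hl
    have cx : x * W v = W v * x := c1 _
    have cz : z * W v = W v * z := c1 _
    have cx' : x' * W v = W v * x' := c2 _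
    have cz' : z' * W v = W v * z' := c2 _
    have C : ∀ a b : A, a * W v = W v * a → b * W v = W v * b → a * b * W v = W v * (a * b) := by
      intro a b ha hb
      rw [mul_assoc, hb, ← mul_assoc, ha, mul_assoc]
    rw [smul_mul_assoc, mul_smul_comm]
    congr 1
    rw [sub_mul, add_mul, add_mul, one_mul, mul_sub, mul_add, mul_add, mul_one,
      C x x' cx cx', C z z' cz cz', C (x * z * x') z' (C (x * z) x' (C x z cx cz) cx') cz']

end

/-! ### The configuration -/

section

variable {L : Type} {T : TVN} {W : VI (L × ℕ) → T.E}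

/-- the symmetries -/
noncomputable def gg (W : VI (L × ℕ) → T.E) (κ : L × ℕ) : T.E := W (Finsupp.single κ (0, 1))

theorem isom_norm_le (T : TVN) {u : T.E} (hu : star u * u = 1) : T.opNorm u ≤ 1 := by
  have h1 : ‖(u : T.H →L[ℂ] T.H)‖ * ‖(u : T.H →L[ℂ] T.H)‖ ≤ 1 := by
    rw [← CStarRing.norm_star_mul_self]
    have : star (u : T.H →L[ℂ] T.H) * (u : T.H →L[ℂ] T.H) = 1 := congrArg Subtype.val hu
    rw [this]
    exact ContinuousLinearMap.norm_id_le
  have h2 : 0 ≤ ‖(u : T.H →L[ℂ] T.H)‖ := norm_nonneg _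
  show ‖(u : T.H →L[ℂ] T.H)‖ ≤ 1
  nlinarith

theorem gg_norm_le (hW : PSys T.τ W) (κ : L × ℕ) : T.opNorm (gg W κ) ≤ 1 :=
  isom_norm_le T (hW.star_mul_self _)

theorem gg_dist (hW : PSys T.τ W) {κ κ' : L × ℕ} (h : κ ≠ κ') :
    1 < n2 T.τ (gg W κ - gg W κ') := by
  have hne : ∀ {κ κ' : L × ℕ}, κ ≠ κ' →
      (Finsupp.single κ (0, 1) + Finsupp.single κ' (0, 1) : VI (L × ℕ)) ≠ 0 := by
    intro κ κ' h hh
    have h2 := congrArg (fun v : VI (L × ℕ) => v κ) hh
    simp only [Finsupp.add_apply, Finsupp.single_eq_same, Finsupp.coe_zero, Pi.zero_apply] at h2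
    rw [Finsupp.single_eq_of_ne h, add_zero] at h2
    exact absurd (congrArg Prod.snd h2) (by decide)
  have hz : ∀ {κ κ' : L × ℕ}, κ ≠ κ' → T.τ (star (gg W κ) * gg W κ') = 0 := by
    intro κ κ' h
    unfold gg
    rw [hW.adj, smul_mul_assoc, hW.mul, map_smul, map_smul, hW.trace_ne _ (hne h), smul_zero,
      smul_zero]
  have ho : ∀ κ : L × ℕ, T.τ (star (gg W κ) * gg W κ) = 1 := by
    intro κ
    unfold gg
    rw [hW.star_mul_self, T.map_one]
  have h1 : n2 T.τ (gg W κ - gg W κ') ^ 2 = 2 := by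
    rw [T.trAlg.n2_sq]
    have e : star (gg W κ - gg W κ') * (gg W κ - gg W κ') = star (gg W κ) * gg W κ +
        star (gg W κ') * gg W κ' - star (gg W κ) * gg W κ' - star (gg W κ') * gg W κ := by
      rw [star_sub]; noncomm_ring
    rw [e, map_sub, map_sub, map_add, ho, ho, hz h, hz h.symm]
    norm_num
  have h2 := n2_nonneg T.τ (gg W κ - gg W κ')
  nlinarith

theorem gg_inj (hW : PSys T.τ W) : Function.Injective (gg W) := by
  intro κ κ' h
  by_contra hne
  have := gg_dist hW hne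
  rw [h, sub_self, T.trAlg.n2_zero] at this
  linarith

theorem exists_uF (hW : PSys T.τ W) (F : Finset L) : ∃ u : T.E, star u * u = 1 ∧ u * star u = 1 ∧
    (∀ α ∈ F, u * gg W (α, 0) = gg W (α, 1) * u) ∧
    ∀ v : VI (L × ℕ), (∀ α ∈ F, ∀ m, v (α, m) = 0) → u * W v = W v * u := by
  classical
  induction F using Finset.induction_on with
  | empty =>
    exact ⟨1, by simp, by simp, fun α hα => absurd hα (Finset.notMem_empty α), fun v _ => by
      rw [one_mul, mul_one]⟩
  | insert β F hβ ih =>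
    obtain ⟨u, hu1, hu2, hu3, hu4⟩ := ih
    obtain ⟨s, hs1, hs2, hs3, hs4⟩ := exists_flip hW (i := (β, 0)) (k := (β, 1)) (by simp)
    refine ⟨u * s, ?_, ?_, ?_, ?_⟩
    · rw [star_mul, hs2]
      calc s * star u * (u * s) = s * (star u * u) * s := by simp only [mul_assoc]
        _ = 1 := by rw [hu1, mul_one, hs1]
    · rw [star_mul, hs2]
      calc u * s * (s * star u) = u * (s * s) * star u := by simp only [mul_assoc]
        _ = 1 := by rw [hs1, mul_one, hu2]
    · intro α hα
      rcases Finset.mem_insert.1 hα with rfl | hα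
      · have h1 : u * gg W (α, 1) = gg W (α, 1) * u := by
          refine hu4 _ fun γ hγ m => ?_
          refine Finsupp.single_eq_of_ne fun hh => hβ ?_
          have := congrArg Prod.fst hh
          simp only at this
          rw [← this]
          exact hγ
        have h2 : s * gg W (α, 0) = gg W (α, 1) * s := hs3
        rw [mul_assoc, h2, ← mul_assoc, h1, mul_assoc]
      · have hne : α ≠ β := fun h => hβ (h ▸ hα)
        have h2 : s * gg W (α, 0) = gg W (α, 0) * s := by
          refine hs4 _ (Finsupp.single_eq_of_ne ?_) (Finsupp.single_eq_of_ne ?_) <;>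
            · intro hh
              exact hne (congrArg Prod.fst hh).symm
        rw [mul_assoc, h2, ← mul_assoc, hu3 α hα, mul_assoc]
    · intro v hv
      have h1 := hu4 v fun α hα m => hv α (Finset.mem_insert_of_mem hα) m
      have h2 := hs4 v (hv β (Finset.mem_insert_self β F) 0) (hv β (Finset.mem_insert_self β F) 1)
      rw [mul_assoc, h2, ← mul_assoc, h1, mul_assoc]

/-- shifting natural numbers -/
theorem exists_sigma {k : ℕ} {i i' : Fin k → ℕ} (hi : StrictMono i) (hi' : StrictMono i') :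
    ∃ σ : ℕ ↪ ℕ, σ 0 = 0 ∧ ∀ s, σ (i s + 1) = i' s + 1 := by
  classical
  obtain ⟨N, hN⟩ : ∃ N : ℕ, ∀ s, i' s + 1 < N := by
    obtain ⟨N, hN⟩ := (Set.finite_range fun s => i' s + 1).bddAbove
    exact ⟨N + 1, fun s => Nat.lt_succ_of_le (hN ⟨s, rfl⟩)⟩
  set f : ℕ → ℕ := fun m => if m = 0 then 0 else if h : ∃ s, m = i s + 1 then i' h.choose + 1
    else m + N with hf
  have h0 : f 0 = 0 := by simp [hf]
  have h1 : ∀ s, f (i s + 1) = i' s + 1 := by
    intro s
    have hex : ∃ s', i s + 1 = i s' + 1 := ⟨s, rfl⟩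
    have e : hex.choose = s := hi.injective (by have := hex.choose_spec; omega)
    simp only [hf]
    rw [if_neg (by omega), dif_pos hex, e]
  have h2 : ∀ m, m ≠ 0 → (¬ ∃ s, m = i s + 1) → f m = m + N := by
    intro m hm hs
    simp only [hf]
    rw [if_neg hm, dif_neg hs]
  refine ⟨⟨f, ?_⟩, h0, h1⟩
  have cases : ∀ m, m = 0 ∨ (∃ s, m = i s + 1) ∨ (m ≠ 0 ∧ ¬ ∃ s, m = i s + 1) := by
    intro m
    by_cases hm : m = 0
    · exact Or.inl hm
    · by_cases hs : ∃ s, m = i s + 1
      · exact Or.inr (Or.inl hs)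
      · exact Or.inr (Or.inr ⟨hm, hs⟩)
  intro m m' hmm
  rcases cases m with rfl | ⟨s, rfl⟩ | ⟨hm, hs⟩ <;> rcases cases m' with rfl | ⟨s', rfl⟩ | ⟨hm', hs'⟩
  · rfl
  · rw [h0, h1] at hmm; omega
  · rw [h0, h2 m' hm' hs'] at hmm; omega
  · rw [h0, h1] at hmm; omega
  · rw [h1, h1] at hmm
    have : s = s' := hi'.injective (by omega)
    rw [this]
  · rw [h1, h2 m' hm' hs'] at hmm
    have := hN s
    omega
  · rw [h0, h2 m hm hs] at hmm; omega
  · rw [h1, h2 m hm hs] at hmm
    have := hN s'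
    omega
  · rw [h2 m hm hs, h2 m' hm' hs'] at hmm
    omega

open Classical in
/-- moving one row -/
noncomputable def rowf (α : L) (σ : ℕ ↪ ℕ) (κ : L × ℕ) : L × ℕ :=
  if κ.1 = α then (α, σ κ.2) else κ

theorem rowf_self (α : L) (σ : ℕ ↪ ℕ) (m : ℕ) : rowf α σ (α, m) = (α, σ m) := by
  unfold rowf
  rw [if_pos rfl]

theorem rowf_ne (α : L) (σ : ℕ ↪ ℕ) (κ : L × ℕ) (h : κ.1 ≠ α) : rowf α σ κ = κ := by
  unfold rowf
  rw [if_neg h]

theorem rowf_inj (α : L) (σ : ℕ ↪ ℕ) : Function.Injective (rowf α σ) := by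
  intro κ κ' h
  obtain ⟨β, m⟩ := κ
  obtain ⟨β', m'⟩ := κ'
  by_cases h1 : β = α <;> by_cases h2 : β' = α
  · subst h1; subst h2
    rw [rowf_self, rowf_self] at h
    have := σ.injective (congrArg Prod.snd h)
    rw [this]
  · subst h1
    rw [rowf_self, rowf_ne _ _ _ h2] at h
    exact absurd (congrArg Prod.fst h).symm h2
  · subst h2
    rw [rowf_self, rowf_ne _ _ _ h1] at h
    exact absurd (congrArg Prod.fst h) h1
  · rw [rowf_ne _ _ _ h1, rowf_ne _ _ _ h2] at h
    exact h

end

end Pool.Agent.K6.H69
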