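import Pool.Agent.K6.H69.SimpF

/-!
The theory of the hyperfinite II_1 factor is not simple: the type.
-/

set_option autoImplicit false
set_option linter.unusedSectionVars false

open scoped InnerProductSpace ComplexOrder Topology
open Filter

namespace Pool.Agent.K6.H69

open Pool.Agent.Helper278 hiding sg
open Pool.Agent.H504R3 (TVN)
open Pool.Agent.H504R3.S (Tm Fm str Str)

section

variable {L : Type} {T : TVN} {W : VI (L × ℕ) → T.E}

/-- the parameters -/
def BB (W : VI (L × ℕ) → T.E) : Set T.E := {b | ∃ κ : L × ℕ, κ.2 ≤ 1 ∧ gg W κ = b}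

theorem exists_idx (b : BB W) : ∃ κ : L × ℕ, κ.2 ≤ 1 ∧ gg W κ = b.1 := b.2

/-- the index of a parameter -/
noncomputable def idx (b : BB W) : L × ℕ := (exists_idx b).choose

theorem idx_le (b : BB W) : (idx b).2 ≤ 1 := (exists_idx b).choose_spec.1

theorem gg_idx (b : BB W) : gg W (idx b) = b.1 := (exists_idx b).choose_spec.2

theorem BB_norm_le (hW : PSys T.τ W) (b : BB W) : T.opNorm b.1 ≤ 1 := by
  rw [← gg_idx]
  exact gg_norm_le hW _

/-- the formula `‖x y x* - z‖₂` -/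
def phi : Fm (1 + 2) :=
  .nrm (.add (.mul (.mul (.var 0) (.var 1)) (.adj (.var 0))) (.scal (-1) (.var 2)))

theorem phi_val (x : Fin 1 → T.E) (b : Fin 2 → T.E) :
    fv T phi (Fin.append x b) = n2 T.τ (x 0 * b 0 * star (x 0) - b 1) := by
  unfold phi
  rw [fv_nrm, tv_add, tv_mul, tv_mul, tv_adj, tv_scal, tv_var, tv_var, tv_var, neg_one_smul,
    ← sub_eq_add_neg]
  rfl

/-- **The complete type that divides over all countable sets of parameters.** -/
theorem exists_type [Nonempty L] (hW : PSys T.τ W) : ∃ p : TypeMap (str T) (BB W) 1,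
    IsType (str T) (BB W) (fun _ => 1) p ∧
    ∀ (α : L) (b : Fin 2 → BB W), (b 0).1 = gg W (α, 0) → (b 1).1 = gg W (α, 1) →
      p 2 phi b = 0 := by
  classical
  choose u hu1 hu2 hu3 hu4 using fun F : Finset L => exists_uF hW F
  set U : Ultrafilter (Finset L) := Ultrafilter.of (atTop : Filter (Finset L)) with hU
  have hUle : (U : Filter (Finset L)) ≤ atTop := Ultrafilter.of_le _
  -- the value
  set g : (m : ℕ) → Fm (1 + m) → (Fin m → BB W) → Finset L → ℝ := fun m φ b F =>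
    fv T φ (Fin.append (fun _ => u F) (fun t => (b t).1)) with hg
  have hlim : ∀ m φ b, ∃ l : ℝ, Tendsto (g m φ b) U (𝓝 l) := by
    intro m φ b
    obtain ⟨C, hC, h1⟩ := fm_bdd T φ 1
    have hmem : ∀ F, g m φ b F ∈ Set.Icc (-C) C := by
      intro F
      rw [Set.mem_Icc, ← abs_le]
      refine h1 _ fun l => ?_
      refine Fin.addCases (fun i => ?_) (fun i => ?_) l
      · rw [Fin.append_left]
        exact isom_norm_le T (hu1 F)
      · rw [Fin.append_right]
        exact BB_norm_le hW _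
    obtain ⟨l, _, hl⟩ := isCompact_Icc.ultrafilter_le_nhds (U.map (g m φ b)) (by
      rw [le_principal_iff, Ultrafilter.coe_map, mem_map]
      exact mem_of_superset univ_mem fun F _ => hmem F)
    exact ⟨l, hl⟩
  choose p hp using hlim
  refine ⟨p, ?_, ?_⟩
  · intro S ε hε
    have h1 : ∀ s ∈ S, ∀ᶠ F in (U : Filter (Finset L)),
        |g s.2.1 s.2.2.1 s.2.2.2 F - p s.2.1 s.2.2.1 s.2.2.2| < ε := by
      intro s _
      have := (hp s.2.1 s.2.2.1 s.2.2.2).eventually (Metric.ball_mem_nhds _ hε)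
      refine this.mono fun F hF => ?_
      rw [← Real.dist_eq]
      exact hF
    obtain ⟨F, hF⟩ := ((Filter.eventually_all_finset S).2 h1).exists
    refine ⟨fun _ => u F, fun _ => ?_, fun s hs => hF s hs⟩
    show T.opNorm (u F) ≤ ((1 : ℕ) : ℝ)
    rw [Nat.cast_one]
    exact isom_norm_le T (hu1 F)
  · intro α b hb0 hb1
    refine tendsto_nhds_unique (hp 2 phi b) ?_
    refine tendsto_const_nhds.congr' ?_
    have : ∀ᶠ F in (U : Filter (Finset L)), α ∈ F := by
      refine hUle ?_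
      exact (eventually_ge_atTop {α}).mono fun F hF => hF (Finset.mem_singleton_self α)
    refine this.mono fun F hF => ?_
    show 0 = fv T phi _
    rw [phi_val, hb0, hb1, hu3 F α hF, mul_assoc, hu2 F, mul_one, sub_self, T.trAlg.n2_zero]

/-- the copies of the parameters -/
noncomputable def cc (W : VI (L × ℕ) → T.E) (α : L) (i : ℕ) (b : BB W) : T.E :=
  open Classical in if idx b = (α, 1) then gg W (α, i + 1) else b.1

/-- their indices -/
noncomputable def ck (α : L) (i : ℕ) (b : BB W) : L × ℕ :=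
  open Classical in if idx b = (α, 1) then (α, i + 1) else idx b

theorem gg_ck (α : L) (i : ℕ) (b : BB W) : gg W (ck α i b) = cc W α i b := by
  unfold ck cc
  split_ifs with h
  · rfl
  · exact gg_idx b

theorem cc_zero (α : L) (b : BB W) : cc W α 0 b = b.1 := by
  unfold cc
  split_ifs with h
  · rw [← gg_idx b, h]
  · rfl

theorem cc_of_ne (hW : PSys T.τ W) (α : L) (i : ℕ) (b : BB W) (m : ℕ) (hm : b.1 = gg W (α, m))
    (hm1 : m ≠ 1) : cc W α i b = gg W (α, m) := by
  have h1 : idx b = (α, m) := gg_inj hW (by rw [gg_idx, hm])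
  unfold cc
  rw [if_neg (by rw [h1]; simpa using hm1), hm]

theorem cc_of_eq (hW : PSys T.τ W) (α : L) (i : ℕ) (b : BB W) (hm : b.1 = gg W (α, 1)) :
    cc W α i b = gg W (α, i + 1) := by
  have h1 : idx b = (α, 1) := gg_inj hW (by rw [gg_idx, hm])
  unfold cc
  rw [if_pos h1]

theorem indisc [Infinite L] (hW : PSys T.τ W) (hd : Dns T.τ W) (α : L) (A : Set T.E)
    (hA : A ⊆ BB W) (h0 : gg W (α, 0) ∉ A) (h1 : gg W (α, 1) ∉ A) :
    Indiscernible (str T) A (cc W α) := by
  intro k q φ v i i' hi hi'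
  obtain ⟨σ, hσ0, hσ1⟩ := exists_sigma hi hi'
  set π : L × ℕ ↪ L × ℕ := ⟨rowf α σ, rowf_inj α σ⟩ with hπ
  -- the index of the value of a variable
  set key : (Fin k → ℕ) → (Fin k × BB W) ⊕ A → L × ℕ := fun i =>
    Sum.elim (fun s => ck α (i s.1) s.2) (fun a => idx ⟨a.1, hA a.2⟩) with hkey
  have e1 : ∀ (i : Fin k → ℕ) (w : (Fin k × BB W) ⊕ A),
      Sum.elim (fun s => cc W α (i s.1) s.2) (fun a => a.1) w = gg W (key i w) := by
    intro i w
    rcases w with s | a
    · exact (gg_ck α (i s.1) s.2).symm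
    · exact (gg_idx (⟨a.1, hA a.2⟩ : BB W)).symm
  have e2 : ∀ w : (Fin k × BB W) ⊕ A, π (key i w) = key i' w := by
    intro w
    rcases w with s | a
    · show rowf α σ (ck α (i s.1) s.2) = ck α (i' s.1) s.2
      unfold ck
      split_ifs with h
      · rw [rowf_self, hσ1]
      · by_cases hα : (idx s.2).1 = α
        · have h2 := idx_le s.2
          have h3 : (idx s.2).2 ≠ 1 := fun h4 => h (Prod.ext hα h4)
          have h4 : idx s.2 = (α, 0) := Prod.ext hα (by omega)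
          rw [h4, rowf_self, hσ0]
        · exact rowf_ne _ _ _ hα
    · show rowf α σ (idx ⟨a.1, hA a.2⟩) = idx ⟨a.1, hA a.2⟩
      refine rowf_ne _ _ _ fun hα => ?_
      have h2 := idx_le (⟨a.1, hA a.2⟩ : BB W)
      have h3 := gg_idx (⟨a.1, hA a.2⟩ : BB W)
      have h5 : (idx (⟨a.1, hA a.2⟩ : BB W)).2 = 0 ∨ (idx (⟨a.1, hA a.2⟩ : BB W)).2 = 1 := by omega
      rcases h5 with h5 | h5
      · rw [show idx (⟨a.1, hA a.2⟩ : BB W) = (α, 0) from Prod.ext hα h5] at h3
        exact h0 (by rw [h3]; exact a.2)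
      · rw [show idx (⟨a.1, hA a.2⟩ : BB W) = (α, 1) from Prod.ext hα h5] at h3
        exact h1 (by rw [h3]; exact a.2)
  have e3 := fv_strings hW hd hW hd φ (fun t => Finsupp.single (key i (v t)) (0, 1)) π
  have e4 : ∀ t, push π (Finsupp.single (key i (v t)) ((0, 1) : ZMod 2 × ZMod 2)) =
      Finsupp.single (key i' (v t)) (0, 1) := by
    intro t
    unfold push
    rw [Finsupp.embDomain_single]
    exact congrArg (fun κ => (Finsupp.single κ (0, 1) : VI (L × ℕ))) (e2 (v t))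
  simp only [e4] at e3
  have e5 : (fun t => Sum.elim (fun s => cc W α (i s.1) s.2) (fun a => a.1) (v t)) =
      fun t => gg W (key i (v t)) := funext fun t => e1 i (v t)
  have e6 : (fun t => Sum.elim (fun s => cc W α (i' s.1) s.2) (fun a => a.1) (v t)) =
      fun t => gg W (key i' (v t)) := funext fun t => e1 i' (v t)
  exact (congrArg (fv T φ) e5).trans (e3.trans (congrArg (fv T φ) e6).symm)

theorem not_finSat (hW : PSys T.τ W) (α : L) (p : TypeMap (str T) (BB W) 1)
    (hp : ∀ b : Fin 2 → BB W, (b 0).1 = gg W (α, 0) → (b 1).1 = gg W (α, 1) → p 2 phi b = 0) :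
    ¬ FinSat p (fun _ => 1) (str T) (cc W α) := by
  classical
  intro h
  set b : Fin 2 → BB W := ![⟨gg W (α, 0), (α, 0), by norm_num, rfl⟩,
    ⟨gg W (α, 1), (α, 1), by norm_num, rfl⟩] with hb
  have hb0 : (b 0).1 = gg W (α, 0) := rfl
  have hb1 : (b 1).1 = gg W (α, 1) := rfl
  obtain ⟨a, h0, h1⟩ : ∃ a : Fin 1 → T.E,
      |fv T phi (Fin.append a fun t => cc W α 0 (b t)) - p 2 phi b| < 1 / 2 ∧
      |fv T phi (Fin.append a fun t => cc W α 1 (b t)) - p 2 phi b| < 1 / 2 := by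
    obtain ⟨a, -, ha⟩ := h {(0, ⟨2, phi, b⟩), (1, ⟨2, phi, b⟩)} (1 / 2) (by norm_num)
    exact ⟨a, ha (0, ⟨2, phi, b⟩) (by simp), ha (1, ⟨2, phi, b⟩) (by simp)⟩
  rw [hp b hb0 hb1, sub_zero] at h0 h1
  have e0 := phi_val (T := T) a (fun t => cc W α 0 (b t))
  have e1 := phi_val (T := T) a (fun t => cc W α 1 (b t))
  rw [cc_of_ne hW α 0 (b 0) 0 hb0 (by norm_num), cc_of_eq hW α 0 (b 1) hb1] at e0
  rw [cc_of_ne hW α 1 (b 0) 0 hb0 (by norm_num), cc_of_eq hW α 1 (b 1) hb1] at e1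
  rw [e0, abs_of_nonneg (n2_nonneg _ _)] at h0
  rw [e1, abs_of_nonneg (n2_nonneg _ _)] at h1
  have h2 : 1 < n2 T.τ (gg W (α, 0 + 1) - gg W (α, 1 + 1)) := gg_dist hW (by simp)
  generalize hz : (a 0 : T.E) * gg W (α, 0) * star (a 0 : T.E) = z at h0 h1
  have h3 := T.trAlg.n2_tri (gg W (α, 0 + 1)) z (gg W (α, 1 + 1))
  rw [T.trAlg.n2_sub_comm (gg W (α, 0 + 1)) z] at h3
  linarith

theorem separable_countable (hW : PSys T.τ W) (A : Set T.E) (hA : A ⊆ BB W)
    (h : SeparableSet (str T) A) : A.Countable := by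
  obtain ⟨S, hS, hSc, hd⟩ : ∃ S : Set T.E, S ⊆ A ∧ S.Countable ∧ ∀ x ∈ A, ∀ ε : ℝ, 0 < ε →
      ∃ y ∈ S, (str T).norm2 ((str T).sub x y) < ε := h
  refine hSc.mono fun x hx => ?_
  obtain ⟨y, hy, hxy⟩ := hd x hx 1 one_pos
  have h1 : n2 T.τ (x - y) < 1 := by
    have h2 : (str T).norm2 ((str T).sub x y) = n2 T.τ (x - y) := by
      rw [Pool.Agent.H504R3.S.sub_eq]
      rfl
    rw [← h2]
    exact hxy
  obtain ⟨κ, -, hκ⟩ := hA hx
  obtain ⟨κ', -, hκ'⟩ := hA (hS hy)
  by_cases hkk : κ = κ'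
  · rw [← hκ, hkk, hκ']
    exact hy
  · have := gg_dist hW hkk
    rw [hκ, hκ'] at this
    linarith

theorem isElementary_id (M : Str) : IsElementary M M id := ⟨fun _ => rfl, fun _ _ _ => rfl⟩

end

/-- **The complete theory of the hyperfinite II_1 factor is not simple.** -/
theorem not_simple (R : Str) (hR : R.IsHyperfinite) : ¬ IsSimple R := by
  classical
  intro hs
  obtain ⟨TR, rfl⟩ := Pool.Agent.H504R3.S.exists_tvn R hR.1
  obtain ⟨WR, hWR, hdR⟩ := hyp_psys TR (Pool.Agent.H504R3.S.hyp_of TR hR)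
  obtain ⟨T, W, hW, hd⟩ := exists_model (Set ℕ × ℕ)
  have heq : (str T).ElemEq (str TR) := elemEq_of hW hd hWR hdR
  obtain ⟨p, hp1, hp2⟩ := exists_type hW
  obtain ⟨A, hA, hAs, hnd⟩ := hs (str T) (Pool.Agent.H504R3.S.isTVN T) heq (BB W) 1 (fun _ => 1) p hp1
  have hAc : A.Countable := separable_countable hW A hA hAs
  -- a row outside `A`
  obtain ⟨α, hα⟩ : ∃ α : Set ℕ, ¬ (gg W (α, 0) ∈ A ∨ gg W (α, 1) ∈ A) := by
    by_contra hcon
    push Not at hcon
    have h0 : {α : Set ℕ | gg W (α, 0) ∈ A}.Countable :=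
      hAc.preimage_of_injOn (f := fun α : Set ℕ => gg W (α, 0)) fun α _ β _ hαβ =>
        congrArg Prod.fst (gg_inj hW hαβ)
    have h1 : {α : Set ℕ | gg W (α, 1) ∈ A}.Countable :=
      hAc.preimage_of_injOn (f := fun α : Set ℕ => gg W (α, 1)) fun α _ β _ hαβ =>
        congrArg Prod.fst (gg_inj hW hαβ)
    have h2 : (Set.univ : Set (Set ℕ)).Countable := (h0.union h1).mono fun α _ => hcon α
    have h3 : Countable (Set ℕ) := Set.countable_univ_iff.1 h2
    rw [← Cardinal.mk_le_aleph0_iff, Cardinal.mk_set, Cardinal.mk_nat] at h3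
    exact absurd h3 (not_le.2 (Cardinal.cantor _))
  rw [not_or] at hα
  refine hnd ⟨str T, id, cc W α, Pool.Agent.H504R3.S.isTVN T, isElementary_id _,
    fun b => cc_zero α b, ?_, not_finSat hW α p fun b h0 h1 => hp2 α b h0 h1⟩
  rw [Set.image_id]
  exact indisc hW hd α A hA hα.1 hα.2

end Pool.Agent.K6.H69
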