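import Pool.Agent.K6.H69.SimpG

/-!
The hyperfinite II_1 factor exists.
-/

set_option autoImplicit false
set_option linter.unusedSectionVars false

open scoped InnerProductSpace ComplexOrder Topology

namespace Pool.Agent.K6.H69

open Pool.Agent.Helper278 hiding sg
open Pool.Agent.Helper436.SM (sg)
open Pool.Agent.Helper436.SM.ExR (sg_sq)
open Pool.Agent.H504R3 (TVN)
open Pool.Agent.H504R3.S (Tm Fm str Str)

section

variable {A : Type} [Ring A] [StarRing A] [Algebra ℂ A] [StarModule ℂ A]

/-- matrix units from two anticommuting symmetries -/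
noncomputable def mu (x z : A) : Fin 2 → Fin 2 → A :=
  ![![(2⁻¹ : ℂ) • (1 + z), (2⁻¹ : ℂ) • (x - x * z)], ![(2⁻¹ : ℂ) • (x + x * z), (2⁻¹ : ℂ) • (1 - z)]]

theorem mu_mul {x z : A} (hx : x * x = 1) (hz : z * z = 1) (hzx : z * x = -(x * z))
    (a b c d : Fin 2) : mu x z a b * mu x z c d = if b = c then mu x z a d else 0 := by
  have a1 : ∀ t, x * (x * t) = t := fun t => by rw [← mul_assoc, hx, one_mul]
  have a3 : ∀ t, z * (x * t) = -(x * (z * t)) := fun t => by
    rw [← mul_assoc, hzx, neg_mul, mul_assoc]
  fin_cases a <;> fin_cases b <;> fin_cases c <;> fin_cases d <;>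
    simp [mu, mul_add, add_mul, mul_sub, sub_mul, mul_assoc, a1, a3, hx, hz, hzx] <;> module

theorem mu_star {x z : A} (hx : star x = x) (hz : star z = z) (hzx : z * x = -(x * z))
    (a b : Fin 2) : star (mu x z a b) = mu x z b a := by
  fin_cases a <;> fin_cases b <;> simp [mu, hx, hz, hzx, star_add, star_sub, star_mul]
  module

theorem mu_one (x z : A) : mu x z 0 0 + mu x z 1 1 = 1 := by
  simp [mu]
  module

end

theorem exists_hyperfinite : ∃ R : Str, R.IsHyperfinite := by
  classical
  obtain ⟨T, W, hW, hd⟩ := exists_model ℕ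
  have hxx : ∀ l : ℕ, W (Finsupp.single l (1, 0)) * W (Finsupp.single l (1, 0)) = 1 := by
    intro l
    rw [hW.mul, bfI_single, VI_add_self, hW.zero]
    simp [sg]
  have hzz : ∀ l : ℕ, W (Finsupp.single l (0, 1)) * W (Finsupp.single l (0, 1)) = 1 := by
    intro l
    rw [hW.mul, bfI_single, VI_add_self, hW.zero]
    simp [sg]
  have hzx : ∀ l : ℕ, W (Finsupp.single l (0, 1)) * W (Finsupp.single l (1, 0)) =
      -(W (Finsupp.single l (1, 0)) * W (Finsupp.single l (0, 1))) := by
    intro l
    rw [hW.mul, hW.mul, bfI_single, bfI_single, add_comm]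
    simp [sg]
  have hsx : ∀ l : ℕ, star (W (Finsupp.single l (1, 0))) = W (Finsupp.single l (1, 0)) := by
    intro l
    rw [hW.adj, bfI_single]
    simp [sg]
  have hsz : ∀ l : ℕ, star (W (Finsupp.single l (0, 1))) = W (Finsupp.single l (0, 1)) := by
    intro l
    rw [hW.adj, bfI_single]
    simp [sg]
  have hxz : ∀ l : ℕ, W (Finsupp.single l (1, 0)) * W (Finsupp.single l (0, 1)) =
      W (Finsupp.single l (1, 1)) := by
    intro l
    rw [hW.mul, bfI_single, ← Finsupp.single_add]
    simp [sg]
  set e : ℕ → Fin 2 → Fin 2 → T.E := fun k =>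
    mu (W (Finsupp.single k (1, 0))) (W (Finsupp.single k (0, 1))) with he
  have hzero : (str T).zero = (0 : T.E) := zero_smul ℂ (1 : T.E)
  refine ⟨str T, Pool.Agent.H504R3.S.isTVN T, e, ?_, ?_, ?_⟩
  · intro k
    refine ⟨?_, ?_, ?_⟩
    · intro a b c d
      rw [hzero]
      exact mu_mul (hxx k) (hzz k) (hzx k) a b c d
    · intro a b
      exact mu_star (hsx k) (hsz k) (hzx k) a b
    · exact mu_one (W (Finsupp.single k (1, 0))) (W (Finsupp.single k (0, 1)))
  · intro k l hkl a b c d
    have hc : ∀ p q, Commute (W (Finsupp.single k p)) (W (Finsupp.single l q)) := fun p q =>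
      hW.comm_of (single_disj hkl p q)
    have h1 : ∀ (q : ZMod 2 × ZMod 2) (a b : Fin 2), Commute (e k a b) (W (Finsupp.single l q)) := by
      intro q a b
      rw [he]
      fin_cases a <;> fin_cases b <;>
        simp only [mu, Matrix.cons_val_zero, Matrix.cons_val_one, Fin.zero_eta, Fin.mk_one,
          Matrix.cons_val', Matrix.cons_val_fin_one] <;>
        refine Commute.smul_left ?_ _
      · exact (Commute.one_left _).add_left (hc _ _)
      · exact (hc _ _).sub_left ((hc _ _).mul_left (hc _ _))
      · exact (hc _ _).add_left ((hc _ _).mul_left (hc _ _))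
      · exact (Commute.one_left _).sub_left (hc _ _)
    have h2 : Commute (e k a b) (e l c d) := by
      conv_rhs => rw [he]
      fin_cases c <;> fin_cases d <;>
        simp only [mu, Matrix.cons_val_zero, Matrix.cons_val_one, Fin.zero_eta, Fin.mk_one,
          Matrix.cons_val', Matrix.cons_val_fin_one] <;>
        refine Commute.smul_right ?_ _
      · exact (Commute.one_right _).add_right (h1 _ _ _)
      · exact (h1 _ _ _).sub_right ((h1 _ _ _).mul_right (h1 _ _ _))
      · exact (h1 _ _ _).add_right ((h1 _ _ _).mul_right (h1 _ _ _))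
      · exact (Commute.one_right _).sub_right (h1 _ _ _)
    exact h2
  · intro x ε hε
    obtain ⟨c, hc⟩ := hd x ε hε
    set E : ℕ × Fin 2 × Fin 2 → T.E := fun v => e v.1 v.2.1 v.2.2 with hE
    let P : T.E → Prop := fun y => ∃ t : Tm (ℕ × Fin 2 × Fin 2), tv T t E = y
    have padd : ∀ a b, P a → P b → P (a + b) := by
      rintro a b ⟨s, hs⟩ ⟨t, ht⟩
      exact ⟨.add s t, by rw [tv_add, hs, ht]⟩
    have pmul : ∀ a b, P a → P b → P (a * b) := by
      rintro a b ⟨s, hs⟩ ⟨t, ht⟩
      exact ⟨.mul s t, by rw [tv_mul, hs, ht]⟩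
    have psm : ∀ (r : ℂ) a, P a → P (r • a) := by
      rintro r a ⟨s, hs⟩
      exact ⟨.scal r s, by rw [tv_scal, hs]⟩
    have pone : P 1 := ⟨.one, rfl⟩
    have pe : ∀ k a b, P (e k a b) := fun k a b => ⟨.var (k, a, b), rfl⟩
    have px : ∀ k, P (W (Finsupp.single k (1, 0))) := by
      intro k
      have : W (Finsupp.single k (1, 0)) = e k 0 1 + e k 1 0 := by
        rw [he]
        simp [mu]
        module
      rw [this]
      exact padd _ _ (pe _ _ _) (pe _ _ _)
    have pz : ∀ k, P (W (Finsupp.single k (0, 1))) := by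
      intro k
      have : W (Finsupp.single k (0, 1)) = e k 0 0 + (-1 : ℂ) • e k 1 1 := by
        rw [he]
        simp [mu]
        module
      rw [this]
      exact padd _ _ (pe _ _ _) (psm _ _ (pe _ _ _))
    have psingle : ∀ k (a : ZMod 2 × ZMod 2), P (W (Finsupp.single k a)) := by
      intro k a
      have hcases : ∀ a : ZMod 2 × ZMod 2, a = (0, 0) ∨ a = (0, 1) ∨ a = (1, 0) ∨ a = (1, 1) := by
        decide
      rcases hcases a with rfl | rfl | rfl | rfl
      · have : (Finsupp.single k ((0, 0) : ZMod 2 × ZMod 2) : VI ℕ) = 0 := Finsupp.single_zero k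
        rw [this, hW.zero]
        exact pone
      · exact pz k
      · exact px k
      · rw [← hxz]
        exact pmul _ _ (px k) (pz k)
    have pW : ∀ v : VI ℕ, P (W v) := by
      intro v
      induction v using Finsupp.induction with
      | zero => rw [hW.zero]; exact pone
      | single_add k a v _ _ ih =>
        have : W (Finsupp.single k a + v) = sg (bfI (Finsupp.single k a) v) •
            (W (Finsupp.single k a) * W v) := by
          rw [hW.mul, smul_smul, sg_sq, one_smul]
        rw [this]
        exact psm _ _ (pmul _ _ (psingle k a) ih)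
    have plc : P (Finsupp.linearCombination ℂ W c) := by
      rw [Finsupp.linearCombination_apply, Finsupp.sum]
      refine Finset.sum_induction _ P padd ?_ fun v _ => psm _ _ (pW v)
      have := psm 0 1 pone
      rwa [zero_smul] at this
    obtain ⟨t, ht⟩ := plc
    refine ⟨t, ?_⟩
    have h3 : ∀ y : T.E, (str T).norm2 ((str T).sub y (tv T t E)) = n2 T.τ (y - tv T t E) := by
      intro y
      rw [Pool.Agent.H504R3.S.sub_eq]
      rfl
    refine lt_of_eq_of_lt (h3 x) ?_
    rw [ht]
    exact hc

end Pool.Agent.K6.H69
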